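import Mathlib
import Pool.Agent.H557R2.FptDec

/-!
# Ears, ear anonymity and linkages in digraphs
-/

namespace Pool.Agent.D0H58.EA

open Pool.Agent.NPC Pool.Agent.H557R2.Fpt Turing

/-- A digraph on the vertex set `V`, without loops and without parallel arcs. -/
structure Dig (V : Type) where
  /-- the arcs -/
  Arc : V → V → Prop
  /-- there are no loops -/
  loopless : ∀ v, ¬ Arc v v

section

variable {V : Type}

/-- A walk, given as the nonempty list of its vertices. -/
def IsWalk (D : Dig V) (w : List V) : Prop := w ≠ [] ∧ w.IsChain D.Arc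

/-- A path: a walk without repeated vertices. -/
def IsPath (D : Dig V) (w : List V) : Prop := IsWalk D w ∧ w.Nodup

/-- A cycle: a walk `v₀, …, v_ℓ` with `v₀ = v_ℓ` and `ℓ ≥ 2` such that `v₀, …, v_{ℓ-1}` is a path. -/
def IsCycle (D : Dig V) (w : List V) : Prop :=
  IsWalk D w ∧ w.head? = w.getLast? ∧ 3 ≤ w.length ∧ w.dropLast.Nodup

/-- An ear is a path or a cycle. -/
def IsEar (D : Dig V) (w : List V) : Prop := IsPath D w ∨ IsCycle D w

/-- The sequence of the arcs of the walk `v₀, …, v_ℓ`: it is `(v₀, v₁), …, (v_{ℓ-1}, v_ℓ)`. -/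
def arcs (w : List V) : List (V × V) := w.zip w.tail

/-- `w` is a subgraph of `w'`. -/
def Sub (w w' : List V) : Prop := (∀ v ∈ w, v ∈ w') ∧ ∀ a ∈ arcs w, a ∈ arcs w'

/-- The ear `w` is maximal: every ear having it as a subgraph is a subgraph of it (so, is the same
subgraph). -/
def IsMaxEar (D : Dig V) (w : List V) : Prop :=
  IsEar D w ∧ ∀ w', IsEar D w' → Sub w w' → Sub w' w

/-- `s` is an identifying sequence for the ear `w`: it is a nonempty sequence of arcs of `w`, in the
order in which they occur on `w`, and every ear which contains these arcs in this order is a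
subgraph of `w`. -/
def Identifies (D : Dig V) (w : List V) (s : List (V × V)) : Prop :=
  s ≠ [] ∧ s.Sublist (arcs w) ∧ ∀ w', IsEar D w' → s.Sublist (arcs w') → Sub w' w

open Classical in
/-- The ear anonymity of the (maximal) ear `w` of `D`: the length of a shortest identifying
sequence; `0` when `w` has no arcs. -/
noncomputable def eaOf (D : Dig V) (w : List V) : ℕ :=
  if arcs w = [] then 0 else sInf {m | ∃ s, Identifies D w s ∧ s.length = m}

/-- The ear anonymity of `D`: the maximum of the ear anonymity of its maximal ears. -/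
noncomputable def ea (D : Dig V) : ℕ := sSup {m | ∃ w, IsMaxEar D w ∧ eaOf D w = m}

/-- Acyclic digraphs. -/
def Acyclic (D : Dig V) : Prop := ∀ w, ¬ IsCycle D w

/-- A linkage: a set of pairwise vertex-disjoint paths. -/
def IsLinkage (D : Dig V) (L : Set (List V)) : Prop :=
  (∀ w ∈ L, IsPath D w) ∧ ∀ w ∈ L, ∀ w' ∈ L, w ≠ w' → ∀ v ∈ w, v ∉ w'

/-- LINKAGE: is there a linkage containing, for each of the pairs `(s, t)` in `S`, a path from `s`
to `t`? -/
def HasLinkage (D : Dig V) (S : List (V × V)) : Prop :=
  ∃ L, IsLinkage D L ∧ ∀ p ∈ S, ∃ w ∈ L, w.head? = some p.1 ∧ w.getLast? = some p.2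

end

open Classical in
/-- The adjacency matrix of a digraph. -/
noncomputable def matOf {n : ℕ} (D : Dig (Fin n)) : List (List Bool) :=
  List.ofFn fun i => List.ofFn fun j => decide (D.Arc i j)

/-- The bit string by which the instance `(D, S)` of LINKAGE is given to a machine: the standard
code of the pair of the adjacency matrix of `D` and of the list `S` of pairs of vertices. -/
noncomputable def code {n : ℕ} (D : Dig (Fin n)) (S : List (Fin n × Fin n)) : List Bool :=
  bits ((matOf D, S.map fun p => (p.1.1, p.2.1)) : List (List Bool) × List (ℕ × ℕ))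

/-- LINKAGE on acyclic digraphs of ear anonymity at most `c`, with parameter the number of pairs. -/
def linkageProblem (c : ℕ) : PProblem :=
  {y | ∃ (n : ℕ) (D : Dig (Fin n)) (S : List (Fin n × Fin n)), y.1 = code D S ∧ S.length = y.2 ∧
    Acyclic D ∧ ea D ≤ c ∧ HasLinkage D S}

open Classical in
/-- The Turing machine `M` solves LINKAGE on all instances `(D, S)` with `D` in the class `C`: it
answers correctly, and it makes at most `f k * |x| ^ g (ea D)` steps, where `k` is the number of
pairs and `|x|` is the length of the input (which is larger than the number of vertices of `D`). -/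
def SolvesOn (C : ∀ n : ℕ, Dig (Fin n) → Prop) (M : TM2ComputableAux Bool Bool) (f g : ℕ → ℕ) :
    Prop :=
  ∀ (n : ℕ) (D : Dig (Fin n)) (S : List (Fin n × Fin n)), C n D →
    Nonempty (TM2OutputsInTime M.tm ((code D S).map M.inputAlphabet.invFun)
      (some ([decide (HasLinkage D S)].map M.outputAlphabet.invFun))
      (f S.length * (code D S).length ^ g (ea D)))

/-- The Turing machine `M` decides the parameterized problem `L` in at most `F k * p |x|` steps. -/
def DecidesInTime (M : TM2ComputableAux Bool Bool) (L : PProblem) (F : ℕ → ℕ) (p : Polynomial ℕ) :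
    Prop := ∃ d : List Bool × ℕ → Bool, (∀ y, y ∈ L ↔ d y = true) ∧
    ∀ x k, Nonempty (TM2OutputsInTime M.tm ((pcode (x, k)).map M.inputAlphabet.invFun)
      (some ([d (x, k)].map M.outputAlphabet.invFun)) (F k * p.eval x.length))

end Pool.Agent.D0H58.EA
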