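import Pool.Agent.D0H58.EA.Lab

/-!
# Cliques and linkages
-/

namespace Pool.Agent.D0H58.EA

/-- the number of positions -/
def bw (n k : ℕ) : ℕ := n * k + k + 1

/-- the number of vertices -/
def size (n k : ℕ) : ℕ := 6 * k * bw n k

/-- the label of a vertex -/
def lab (n k v : ℕ) : Lab := (v / bw n k / k, v / bw n k % k, v % bw n k)

/-- the vertex with a given label -/
def idx (n k : ℕ) (a : Lab) : ℕ := (a.1 * k + a.2.1) * bw n k + a.2.2

theorem idx_lab (n k v : ℕ) : idx n k (lab n k v) = v := by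
  unfold idx lab
  simp only
  have h1 : v / bw n k / k * k + v / bw n k % k = v / bw n k := Nat.div_add_mod' _ _
  rw [h1]
  exact Nat.div_add_mod' _ _

theorem lab_inj {n k u v : ℕ} (h : lab n k u = lab n k v) : u = v := by
  rw [← idx_lab n k u, h, idx_lab]

theorem lab_idx {n k : ℕ} {a : Lab} (h : Box n k a) : lab n k (idx n k a) = a := by
  obtain ⟨t, i, m⟩ := a
  obtain ⟨h1, h2, h3⟩ := h
  simp only at h1 h2 h3
  have hM : 0 < bw n k := by unfold bw; omega
  replace h3 : m < bw n k := h3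
  have h4 : ((t * k + i) * bw n k + m) / bw n k = t * k + i := by
    rw [mul_comm, Nat.mul_add_div hM, Nat.div_eq_of_lt h3, add_zero]
  have h5 : ((t * k + i) * bw n k + m) % bw n k = m := by
    rw [mul_comm, Nat.mul_add_mod, Nat.mod_eq_of_lt h3]
  have h6 : (t * k + i) / k = t := by
    rw [mul_comm, Nat.mul_add_div (by omega), Nat.div_eq_of_lt h2, add_zero]
  have h7 : (t * k + i) % k = i := by
    rw [mul_comm, Nat.mul_add_mod, Nat.mod_eq_of_lt h2]
  unfold lab idx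
  simp only [h4, h5, h6, h7]

theorem idx_lt {n k : ℕ} {a : Lab} (h : Box n k a) : idx n k a < size n k := by
  obtain ⟨t, i, m⟩ := a
  obtain ⟨h1, h2, h3⟩ := h
  simp only at h1 h2 h3
  have h4 : t * k + i + 1 ≤ 6 * k := by
    have : (t + 1) * k ≤ 6 * k := Nat.mul_le_mul_right k h1
    rw [add_mul, one_mul] at this
    omega
  unfold idx size
  simp only
  have h5 : (t * k + i + 1) * bw n k ≤ 6 * k * bw n k := Nat.mul_le_mul_right _ h4
  rw [add_mul, one_mul] at h5
  have h6 : m < bw n k := h3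
  omega

section

variable {n k : ℕ} {A : ℕ → ℕ → ℕ → ℕ → Prop}

/-- the digraph -/
def dig (n k : ℕ) (A : ℕ → ℕ → ℕ → ℕ → Prop) : Dig (Fin (size n k)) where
  Arc u v := AR n k A (lab n k u) (lab n k v)
  loopless _ h := lt_irrefl _ h.rank_lt

theorem layered (n k : ℕ) (A : ℕ → ℕ → ℕ → ℕ → Prop) :
    Layered (dig n k A) 5 (fun v => (lab n k v).1) (fun v => rank n k (lab n k v)) where
  rk_lt _ _ h := AR.rank_lt h
  lev_le _ _ h := AR.lev_le h
  lev_lt _ _ h := AR.lev_lt h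
  lev_pos _ _ h := AR.lev_pos h
  uniq u v v' h h' e e' := by
    have h1 := AR.same h e
    have h2 := AR.same h' e'
    exact Fin.ext (lab_inj (h1.trans h2.symm))

theorem ea_dig (n k : ℕ) (A : ℕ → ℕ → ℕ → ℕ → Prop) : ea (dig n k A) ≤ 5 := ea_le (layered n k A)

theorem acyclic_dig (n k : ℕ) (A : ℕ → ℕ → ℕ → ℕ → Prop) : Acyclic (dig n k A) :=
  acyclic_of_rk (layered n k A).rk_lt

/-- the labels of the vertices of a walk -/
abbrev lm (w : List (Fin (size n k))) : List Lab := w.map fun v : Fin (size n k) => lab n k v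

theorem lm_inj {w w' : List (Fin (size n k))} (h : lm w = lm w') : w = w' := by
  refine (List.map_injective_iff (f := fun v : Fin (size n k) => lab n k v)).2 ?_ h
  intro u v huv
  exact Fin.ext (lab_inj huv)

theorem mem_of_lm {w : List (Fin (size n k))} {v : Fin (size n k)} (h : lab n k v ∈ lm w) :
    v ∈ w := by
  obtain ⟨u, hu, h1⟩ := List.mem_map.1 h
  rw [← Fin.ext (lab_inj h1)]
  exact hu

theorem exists_lm {w₀ : List Lab} (h : ∀ a ∈ w₀, Box n k a) :
    ∃ w : List (Fin (size n k)), lm w = w₀ := by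
  have h1 : w₀ ∈ Set.range (List.map fun v : Fin (size n k) => lab n k v) := by
    rw [Set.range_list_map]
    intro a ha
    exact ⟨⟨idx n k a, idx_lt (h a ha)⟩, lab_idx (h a ha)⟩
  exact h1

theorem chain_lm {w : List (Fin (size n k))} : w.IsChain (dig n k A).Arc ↔
    (lm w).IsChain (AR n k A) := by
  rw [List.isChain_map]
  exact Iff.rfl

/-- the pairs of terminals -/
def terms (n k : ℕ) : List (Lab × Lab) :=
  ((List.range k).map fun i => (((1, i, 0) : Lab), ((2, i, n * k) : Lab))) ++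
    (((List.range k).map fun l => (((3, l, 0) : Lab), ((4, l, n * k) : Lab))) ++
      (List.product (List.range k) (List.range k)).map fun q =>
        (((0, q.1, q.2) : Lab), ((5, q.1, q.2) : Lab)))

theorem length_terms (n k : ℕ) : (terms n k).length = k + (k + k * k) := by
  unfold terms
  have h : ((List.range k).product (List.range k)).length = k * k := by
    have := List.length_product (List.range k) (List.range k)
    rw [List.length_range] at this
    exact this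
  simp [h]

theorem mem_terms {n k : ℕ} {q : Lab × Lab} : q ∈ terms n k ↔
    (∃ i < k, q = ((1, i, 0), (2, i, n * k))) ∨ (∃ l < k, q = ((3, l, 0), (4, l, n * k))) ∨
      ∃ i < k, ∃ l < k, q = ((0, i, l), (5, i, l)) := by
  unfold terms
  simp only [List.mem_append, List.mem_map, List.mem_range, Prod.exists, List.pair_mem_product]
  constructor
  · rintro (⟨i, hi, rfl⟩ | ⟨l, hl, rfl⟩ | ⟨i, l, ⟨hi, hl⟩, rfl⟩)
    · exact Or.inl ⟨i, hi, rfl⟩
    · exact Or.inr (Or.inl ⟨l, hl, rfl⟩)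
    · exact Or.inr (Or.inr ⟨i, hi, l, hl, rfl⟩)
  · rintro (⟨i, hi, rfl⟩ | ⟨l, hl, rfl⟩ | ⟨i, hi, l, hl, rfl⟩)
    · exact Or.inl ⟨i, hi, rfl⟩
    · exact Or.inr (Or.inl ⟨l, hl, rfl⟩)
    · exact Or.inr (Or.inr ⟨i, l, ⟨hi, hl⟩, rfl⟩)

theorem box_terms {n k : ℕ} {q : Lab × Lab} (h : q ∈ terms n k) : Box n k q.1 ∧ Box n k q.2 := by
  rw [mem_terms] at h
  unfold Box
  rcases h with ⟨i, hi, rfl⟩ | ⟨l, hl, rfl⟩ | ⟨i, hi, l, hl, rfl⟩
  · exact ⟨⟨by simp, hi, by simp⟩, ⟨by simp, hi, by simp only; omega⟩⟩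
  · exact ⟨⟨by simp, hl, by simp⟩, ⟨by simp, hl, by simp only; omega⟩⟩
  · exact ⟨⟨by simp, hi, by simp only; omega⟩, ⟨by simp, hi, by simp only; omega⟩⟩

theorem exists_pairs (n k : ℕ) : ∃ S : List (Fin (size n k) × Fin (size n k)),
    S.map (fun p => (lab n k p.1, lab n k p.2)) = terms n k := by
  have h1 : terms n k ∈ Set.range (List.map fun p : Fin (size n k) × Fin (size n k) =>
      (lab n k p.1, lab n k p.2)) := by
    rw [Set.range_list_map]
    intro q hq
    obtain ⟨h1, h2⟩ := box_terms hq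
    exact ⟨(⟨idx n k q.1, idx_lt h1⟩, ⟨idx n k q.2, idx_lt h2⟩),
      Prod.ext (lab_idx h1) (lab_idx h2)⟩
  exact h1

variable {S : List (Fin (size n k) × Fin (size n k))}

theorem hasLinkage_iff_lm (hS : S.map (fun p => (lab n k p.1, lab n k p.2)) = terms n k) :
    HasLinkage (dig n k A) S ↔ ∃ L, IsLinkage (dig n k A) L ∧ ∀ q ∈ terms n k, ∃ w ∈ L,
      (lm w).head? = some q.1 ∧ (lm w).getLast? = some q.2 := by
  unfold HasLinkage
  refine exists_congr fun L => and_congr_right fun _ => ?_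
  rw [← hS]
  constructor
  · intro h q hq
    obtain ⟨p, hp, rfl⟩ := List.mem_map.1 hq
    obtain ⟨w, hw, h1, h2⟩ := h p hp
    refine ⟨w, hw, ?_, ?_⟩
    · rw [List.head?_map, h1]
      rfl
    · rw [List.getLast?_map, h2]
      rfl
  · intro h p hp
    obtain ⟨w, hw, h1, h2⟩ := h _ (List.mem_map.2 ⟨p, hp, rfl⟩)
    refine ⟨w, hw, ?_, ?_⟩
    · rw [List.head?_map, Option.map_eq_some_iff] at h1
      obtain ⟨a, ha, h3⟩ := h1
      rw [ha, Fin.ext (lab_inj h3)]
    · rw [List.getLast?_map, Option.map_eq_some_iff] at h2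
      obtain ⟨a, ha, h3⟩ := h2
      rw [ha, Fin.ext (lab_inj h3)]

theorem cons_of_head? {α : Type} {w : List α} {a : α} (h : w.head? = some a) :
    ∃ l, w = a :: l := by
  cases w with
  | nil => simp at h
  | cons b l =>
    simp only [List.head?_cons, Option.some.injEq] at h
    exact ⟨l, by rw [h]⟩

theorem clique_of_linkage (hA : ∀ i q r, A i i q r → q = r)
    (hS : S.map (fun p => (lab n k p.1, lab n k p.2)) = terms n k)
    (h : HasLinkage (dig n k A) S) :
    ∃ p : ℕ → ℕ, (∀ i < k, p i < n) ∧ ∀ i < k, ∀ l < k, A i l (p i) (p l) := by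
  rcases Nat.eq_zero_or_pos k with hk | hk
  · exact ⟨fun _ => 0, fun i hi => by omega, fun i hi => by omega⟩
  rw [hasLinkage_iff_lm hS] at h
  obtain ⟨L, ⟨hL, hdis⟩, hq⟩ := h
  have hside : ∀ t, (t = 1 ∨ t = 3) → ∀ i, i < k → ∃ w ∈ L, (lm w).head? = some (t, i, 0) ∧
      ∃ p < n, (∀ m, m ≤ p * k → ((t, i, m) : Lab) ∈ lm w) ∧
        (∀ m, (p + 1) * k ≤ m → m ≤ n * k → ((t + 1, i, m) : Lab) ∈ lm w) := by
    intro t ht i hi
    have h1 : (((t, i, 0), (t + 1, i, n * k)) : Lab × Lab) ∈ terms n k := by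
      rw [mem_terms]
      rcases ht with rfl | rfl
      · exact Or.inl ⟨i, hi, rfl⟩
      · exact Or.inr (Or.inl ⟨i, hi, rfl⟩)
    obtain ⟨w, hw, h2, h3⟩ := hq _ h1
    obtain ⟨l, hl⟩ := cons_of_head? h2
    have h4 := chain_lm.1 (hL w hw).1.2
    simp only at h3
    rw [hl] at h3 h4
    obtain ⟨p, hp, h5, h6⟩ := side_block ht hk h4 h3
    rw [← hl] at h5 h6
    exact ⟨w, hw, h2, p, hp, h5, h6⟩
  choose! U hU hUh p hp hp1 hp2 using hside 1 (Or.inl rfl)
  choose! W hW hWh r hr hr1 hr2 using hside 3 (Or.inr rfl)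
  have key : ∀ i < k, ∀ l < k, A i l (p i) (r l) := by
    intro i hi l hl
    have h1 : (((0, i, l), (5, i, l)) : Lab × Lab) ∈ terms n k := by
      rw [mem_terms]
      exact Or.inr (Or.inr ⟨i, hi, l, hl, rfl⟩)
    obtain ⟨w, hw, h2, h3⟩ := hq _ h1
    have h4 := chain_lm.1 (hL w hw).1.2
    have hne : w ≠ U i := by
      rintro rfl
      rw [hUh i hi] at h2
      simp at h2
    have hne' : w ≠ W l := by
      rintro rfl
      rw [hWh l hl] at h2
      simp at h2
    have hd : ∀ w' ∈ L, w ≠ w' → ∀ v ∈ lm w, ¬ v ∈ lm w' := by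
      intro w' hw' hne v hv hv'
      obtain ⟨u, hu, rfl⟩ := List.mem_map.1 hv
      exact hdis w hw w' hw' hne u hu (mem_of_lm hv')
    exact allowed_of_linkage (U := fun a => a ∈ lm (U i)) (W := fun a => a ∈ lm (W l))
      (hp1 i hi) (hp2 i hi) (hr1 l hl) (hr2 l hl) h4 h2 h3 (hd _ (hU i hi) hne)
      (hd _ (hW l hl) hne')
  refine ⟨p, hp, fun i hi l hl => ?_⟩
  have h1 := hA _ _ _ (key l hl l hl)
  rw [h1]
  exact key i hi l hl

/-- the owner of a label -/
def own (k : ℕ) (p : ℕ → ℕ) (a : Lab) : ℕ × ℕ × ℕ :=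
  if a.1 = 0 ∨ a.1 = 5 then (2, a.2.1, a.2.2)
  else if a.1 = 1 then
    if a.2.2 ≤ p a.2.1 * k then (0, a.2.1, 0) else (2, a.2.1, a.2.2 - 1 - p a.2.1 * k)
  else if a.1 = 2 then
    if (p a.2.1 + 1) * k ≤ a.2.2 then (0, a.2.1, 0) else (2, a.2.1, a.2.2 - p a.2.1 * k)
  else if a.1 = 3 then
    if a.2.2 ≤ p a.2.1 * k then (1, a.2.1, 0) else (2, a.2.2 - 1 - p a.2.1 * k, a.2.1)
  else
    if (p a.2.1 + 1) * k ≤ a.2.2 then (1, a.2.1, 0) else (2, a.2.2 - p a.2.1 * k, a.2.1)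

theorem linkage_of_clique
    (hS : S.map (fun p => (lab n k p.1, lab n k p.2)) = terms n k) {p : ℕ → ℕ}
    (hp : ∀ i < k, p i < n) (hA : ∀ i < k, ∀ l < k, A i l (p i) (p l)) :
    HasLinkage (dig n k A) S := by
  rw [hasLinkage_iff_lm hS]
  have h1 : ∀ i, i < k → ∃ w : List Lab, w.IsChain (AR n k A) ∧ w.head? = some (1, i, 0) ∧
      w.getLast? = some (2, i, n * k) ∧
      ∀ v ∈ w, (∃ m, v = (1, i, m) ∧ m ≤ p i * k) ∨ (∃ m, v = (2, i, m) ∧ (p i + 1) * k ≤ m ∧
        m ≤ n * k) := fun i hi => side_path (Or.inl rfl) hi (hp i hi)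
  have h2 : ∀ i, i < k → ∃ w : List Lab, w.IsChain (AR n k A) ∧ w.head? = some (3, i, 0) ∧
      w.getLast? = some (4, i, n * k) ∧
      ∀ v ∈ w, (∃ m, v = (3, i, m) ∧ m ≤ p i * k) ∨ (∃ m, v = (4, i, m) ∧ (p i + 1) * k ≤ m ∧
        m ≤ n * k) := fun i hi => side_path (Or.inr rfl) hi (hp i hi)
  choose! U hU1 hU2 hU3 hU4 using h1
  choose! W hW1 hW2 hW3 hW4 using h2
  let F : ℕ × ℕ × ℕ → List Lab := fun c =>
    if c.1 = 0 then U c.2.1 else if c.1 = 1 then W c.2.1 else mess k p c.2.1 c.2.2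
  let LL : Set (List Lab) := {w | (∃ i < k, w = U i) ∨ (∃ l < k, w = W l) ∨
    ∃ i < k, ∃ l < k, w = mess k p i l}
  have hnk : ∀ i < k, (p i + 1) * k ≤ n * k := fun i hi => Nat.mul_le_mul_right k (hp i hi)
  have e1 : ∀ u : ℕ, (u + 1) * k = u * k + k := fun u => by ring
  have hown : ∀ w ∈ LL, ∀ a ∈ w, w = F (own k p a) := by
    rintro w (⟨i, hi, rfl⟩ | ⟨l, hl, rfl⟩ | ⟨i, hi, l, hl, rfl⟩) a ha
    · rcases hU4 i hi a ha with ⟨m, rfl, hm⟩ | ⟨m, rfl, hm, -⟩
      · simp [F, own, hm]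
      · simp [F, own, hm]
    · rcases hW4 l hl a ha with ⟨m, rfl, hm⟩ | ⟨m, rfl, hm, -⟩
      · simp [F, own, hm]
      · simp [F, own, hm]
    · have f1 := e1 (p i)
      have f2 := e1 (p l)
      unfold mess at ha
      simp only [List.mem_cons, List.not_mem_nil, or_false] at ha
      rcases ha with rfl | rfl | rfl | rfl | rfl | rfl
      · simp [F, own]
      · have h3 : ¬ p i * k + l + 1 ≤ p i * k := by omega
        have h4 : p i * k + l + 1 - 1 - p i * k = l := by omega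
        simp [F, own, h3, h4]
      · have h3 : ¬ (p i + 1) * k ≤ p i * k + l := by omega
        simp [F, own, h3]
      · have h3 : ¬ p l * k + i + 1 ≤ p l * k := by omega
        have h4 : p l * k + i + 1 - 1 - p l * k = i := by omega
        simp [F, own, h3, h4]
      · have h3 : ¬ (p l + 1) * k ≤ p l * k + i := by omega
        simp [F, own, h3]
      · simp [F, own]
  have hchain : ∀ w ∈ LL, w.IsChain (AR n k A) := by
    rintro w (⟨i, hi, rfl⟩ | ⟨l, hl, rfl⟩ | ⟨i, hi, l, hl, rfl⟩)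
    · exact hU1 i hi
    · exact hW1 l hl
    · exact mess_chain hi hl (hp i hi) (hp l hl) (hA i hi l hl)
  have hbox : ∀ w ∈ LL, ∀ a ∈ w, Box n k a := by
    rintro w (⟨i, hi, rfl⟩ | ⟨l, hl, rfl⟩ | ⟨i, hi, l, hl, rfl⟩) a ha
    · have := hnk i hi
      have f1 := e1 (p i)
      rcases hU4 i hi a ha with ⟨m, rfl, hm⟩ | ⟨m, rfl, hm, hm'⟩
      · exact ⟨by simp, hi, by simp only; omega⟩
      · exact ⟨by simp, hi, by simp only; omega⟩
    · have := hnk l hl
      have f1 := e1 (p l)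
      rcases hW4 l hl a ha with ⟨m, rfl, hm⟩ | ⟨m, rfl, hm, hm'⟩
      · exact ⟨by simp, hl, by simp only; omega⟩
      · exact ⟨by simp, hl, by simp only; omega⟩
    · have g1 := blk_le (hp i hi) hl
      have g2 := blk_le (hp l hl) hi
      unfold mess at ha
      simp only [List.mem_cons, List.not_mem_nil, or_false] at ha
      rcases ha with rfl | rfl | rfl | rfl | rfl | rfl
      · exact ⟨by simp, hi, by simp only; omega⟩
      · exact ⟨by simp, hi, by simp only; omega⟩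
      · exact ⟨by simp, hi, by simp only; omega⟩
      · exact ⟨by simp, hl, by simp only; omega⟩
      · exact ⟨by simp, hl, by simp only; omega⟩
      · exact ⟨by simp, hi, by simp only; omega⟩
  have hne : ∀ w ∈ LL, w ≠ [] := by
    rintro w (⟨i, hi, rfl⟩ | ⟨l, hl, rfl⟩ | ⟨i, hi, l, hl, rfl⟩) h
    · have := hU2 i hi
      rw [h] at this
      simp at this
    · have := hW2 l hl
      rw [h] at this
      simp at this
    · simp [mess] at h
  refine ⟨{w | lm w ∈ LL}, ⟨?_, ?_⟩, ?_⟩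
  · intro w hw
    have h3 : w ≠ [] := by
      rintro rfl
      exact hne _ hw rfl
    exact isPath_of_isWalk (layered n k A).rk_lt ⟨h3, chain_lm.2 (hchain _ hw)⟩
  · intro w hw w' hw' hww v hv hv'
    apply hww
    apply lm_inj
    rw [hown _ hw (lab n k v) (List.mem_map.2 ⟨v, hv, rfl⟩),
      hown _ hw' (lab n k v) (List.mem_map.2 ⟨v, hv', rfl⟩)]
  · intro q hq
    have hex : ∀ w₀ ∈ LL, w₀.head? = some q.1 → w₀.getLast? = some q.2 →
        ∃ w ∈ {w : List (Fin (size n k)) | lm w ∈ LL}, (lm w).head? = some q.1 ∧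
          (lm w).getLast? = some q.2 := by
      intro w₀ hw₀ g1 g2
      obtain ⟨w, rfl⟩ := exists_lm (hbox _ hw₀)
      exact ⟨w, hw₀, g1, g2⟩
    rw [mem_terms] at hq
    rcases hq with ⟨i, hi, rfl⟩ | ⟨l, hl, rfl⟩ | ⟨i, hi, l, hl, rfl⟩
    · exact hex _ (Or.inl ⟨i, hi, rfl⟩) (hU2 i hi) (hU3 i hi)
    · exact hex _ (Or.inr (Or.inl ⟨l, hl, rfl⟩)) (hW2 l hl) (hW3 l hl)
    · exact hex _ (Or.inr (Or.inr ⟨i, hi, l, hl, rfl⟩)) rfl rfl

/-- **Correctness of the reduction.** -/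
theorem hasLinkage_iff (hA : ∀ i q r, A i i q r → q = r)
    (hS : S.map (fun p => (lab n k p.1, lab n k p.2)) = terms n k) :
    HasLinkage (dig n k A) S ↔
      ∃ p : ℕ → ℕ, (∀ i < k, p i < n) ∧ ∀ i < k, ∀ l < k, A i l (p i) (p l) :=
  ⟨clique_of_linkage hA hS, fun ⟨_, h1, h2⟩ => linkage_of_clique hS h1 h2⟩

end

end Pool.Agent.D0H58.EA
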