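import Pool.Agent.D0H58.EA.Walk

/-!
# The digraph of the reduction from Clique to LINKAGE

`n` is the number of vertices of the graph, `k` the size of the clique.  The vertices are labelled
`(t, i, m)`: `t` is the layer, `i < k` the index of a chain of this layer, and `m ≤ n * k` the
position in the chain.
-/

namespace Pool.Agent.D0H58.EA

/-- labels -/
abbrev Lab : Type := ℕ × ℕ × ℕ

/-- the arcs, where `A i l q r` says that the pair `(q, r)` of vertices of the source graph is
allowed in the cell `(i, l)` -/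
inductive AR (n k : ℕ) (A : ℕ → ℕ → ℕ → ℕ → Prop) : Lab → Lab → Prop
  | chain (t i m : ℕ) : 1 ≤ t → t ≤ 4 → i < k → m < n * k → AR n k A (t, i, m) (t, i, m + 1)
  | rung (t i p : ℕ) : (t = 1 ∨ t = 3) → i < k → p < n → AR n k A (t, i, p * k) (t + 1, i, (p + 1) * k)
  | cross (t i m : ℕ) : (t = 1 ∨ t = 3) → i < k → m < n * k → AR n k A (t, i, m + 1) (t + 1, i, m)
  | enter (i l q : ℕ) : i < k → l < k → q < n → AR n k A (0, i, l) (1, i, q * k + l + 1)
  | mid (i l q r : ℕ) : i < k → l < k → q < n → r < n → A i l q r →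
      AR n k A (2, i, q * k + l) (3, l, r * k + i + 1)
  | leave (i l q : ℕ) : i < k → l < k → q < n → AR n k A (4, l, q * k + i) (5, i, l)

theorem blk_lt {n k q l : ℕ} (hq : q < n) (hl : l < k) : q * k + l < n * k := by
  calc q * k + l < q * k + k := by omega
    _ = (q + 1) * k := by ring
    _ ≤ n * k := Nat.mul_le_mul_right k hq

theorem blk_le {n k q l : ℕ} (hq : q < n) (hl : l < k) : q * k + l + 1 ≤ n * k := blk_lt hq hl

section

variable {n k : ℕ} {A : ℕ → ℕ → ℕ → ℕ → Prop} {a b : Lab}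

/-- the labels in use -/
def Box (n k : ℕ) (a : Lab) : Prop := a.1 < 6 ∧ a.2.1 < k ∧ a.2.2 < n * k + k + 1

theorem AR.box (h : AR n k A a b) : Box n k a ∧ Box n k b := by
  unfold Box
  cases h with
  | chain t i m h1 h2 h3 h4 => exact ⟨⟨by simp; omega, h3, by simp; omega⟩, ⟨by simp; omega, h3, by simp; omega⟩⟩
  | rung t i p h1 h2 h3 =>
    have h4 : (p + 1) * k ≤ n * k := Nat.mul_le_mul_right k h3
    have h5 : p * k ≤ (p + 1) * k := Nat.mul_le_mul_right k (by omega)
    exact ⟨⟨by simp; omega, h2, by simp only; omega⟩, ⟨by simp; omega, h2, by simp only; omega⟩⟩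
  | cross t i m h1 h2 h3 =>
    exact ⟨⟨by simp; omega, h2, by simp; omega⟩, ⟨by simp; omega, h2, by simp; omega⟩⟩
  | enter i l q h1 h2 h3 =>
    have := blk_le h3 h2
    exact ⟨⟨by simp, h1, by simp only; omega⟩, ⟨by simp, h1, by simp only; omega⟩⟩
  | mid i l q r h1 h2 h3 h4 h5 =>
    have h6 := blk_le h3 h2
    have h7 := blk_le h4 h1
    exact ⟨⟨by simp, h1, by simp only; omega⟩, ⟨by simp, h2, by simp only; omega⟩⟩
  | leave i l q h1 h2 h3 =>
    have h6 := blk_le h3 h1
    exact ⟨⟨by simp, h2, by simp only; omega⟩, ⟨by simp, h1, by simp only; omega⟩⟩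

/-- the rank of a label in a topological order -/
def rank (n k : ℕ) (a : Lab) : ℕ := a.1 * (n * k + k + 1) + a.2.2

theorem AR.rank_lt (h : AR n k A a b) : rank n k a < rank n k b := by
  have hb := h.box.1.2.2
  have key : a.1 + 1 ≤ b.1 → rank n k a < rank n k b := by
    intro h1
    unfold rank
    have h2 : (a.1 + 1) * (n * k + k + 1) ≤ b.1 * (n * k + k + 1) := Nat.mul_le_mul_right _ h1
    rw [add_mul, one_mul] at h2
    omega
  cases h with
  | chain t i m h1 h2 h3 h4 => simp [rank]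
  | rung t i p h1 h2 h3 => exact key (by simp)
  | cross t i m h1 h2 h3 => exact key (by simp)
  | enter i l q h1 h2 h3 => exact key (by simp)
  | mid i l q r h1 h2 h3 h4 h5 => exact key (by simp)
  | leave i l q h1 h2 h3 => exact key (by simp)

theorem AR.lev_le (h : AR n k A a b) : a.1 ≤ b.1 := by cases h <;> simp

theorem AR.lev_lt (h : AR n k A a b) : a.1 < 5 := by
  cases h with
  | chain t i m h1 h2 h3 h4 => simp; omega
  | rung t i p h1 h2 h3 => simp; omega
  | cross t i m h1 h2 h3 => simp; omega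
  | enter i l q h1 h2 h3 => simp
  | mid i l q r h1 h2 h3 h4 h5 => simp
  | leave i l q h1 h2 h3 => simp

theorem AR.lev_pos (h : AR n k A a b) : 0 < b.1 := by
  cases h with
  | chain t i m h1 h2 h3 h4 => simp; omega
  | rung t i p h1 h2 h3 => simp
  | cross t i m h1 h2 h3 => simp
  | enter i l q h1 h2 h3 => simp
  | mid i l q r h1 h2 h3 h4 h5 => simp
  | leave i l q h1 h2 h3 => simp

theorem AR.same (h : AR n k A a b) (h' : a.1 = b.1) : b = (a.1, a.2.1, a.2.2 + 1) := by
  cases h with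
  | chain t i m h1 h2 h3 h4 => rfl
  | rung t i p h1 h2 h3 => simp at h'
  | cross t i m h1 h2 h3 => simp at h'
  | enter i l q h1 h2 h3 => simp at h'
  | mid i l q r h1 h2 h3 h4 h5 => simp at h'
  | leave i l q h1 h2 h3 => simp at h'

/-- The arcs out of a left-hand chain. -/
theorem AR.out1 {t i x : ℕ} (ht : t = 1 ∨ t = 3) (h : AR n k A (t, i, x) b) :
    (b = (t, i, x + 1)) ∨ ∃ y, b = (t + 1, i, y) ∧
      ((∃ p < n, x = p * k ∧ y = (p + 1) * k) ∨ (y < n * k ∧ x = y + 1)) := by
  generalize ha : ((t, i, x) : Lab) = a at h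
  cases h with
  | chain t' i' m h1 h2 h3 h4 =>
    simp only [Prod.mk.injEq] at ha
    obtain ⟨rfl, rfl, rfl⟩ := ha
    exact Or.inl rfl
  | rung t' i' p h1 h2 h3 =>
    simp only [Prod.mk.injEq] at ha
    obtain ⟨rfl, rfl, rfl⟩ := ha
    exact Or.inr ⟨_, rfl, Or.inl ⟨p, h3, rfl, rfl⟩⟩
  | cross t' i' m h1 h2 h3 =>
    simp only [Prod.mk.injEq] at ha
    obtain ⟨rfl, rfl, rfl⟩ := ha
    exact Or.inr ⟨_, rfl, Or.inr ⟨h3, rfl⟩⟩
  | enter i' l q h1 h2 h3 =>
    simp only [Prod.mk.injEq] at ha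
    omega
  | mid i' l q r h1 h2 h3 h4 h5 =>
    simp only [Prod.mk.injEq] at ha
    omega
  | leave i' l q h1 h2 h3 =>
    simp only [Prod.mk.injEq] at ha
    omega

/-- The arcs out of layer 0. -/
theorem AR.out0 {i l : ℕ} (h : AR n k A (0, i, l) b) :
    ∃ q < n, l < k ∧ b = (1, i, q * k + l + 1) := by
  generalize ha : ((0, i, l) : Lab) = a at h
  cases h with
  | chain t' i' m h1 h2 h3 h4 =>
    simp only [Prod.mk.injEq] at ha
    omega
  | rung t' i' p h1 h2 h3 =>
    simp only [Prod.mk.injEq] at ha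
    omega
  | cross t' i' m h1 h2 h3 =>
    simp only [Prod.mk.injEq] at ha
    omega
  | enter i' l' q h1 h2 h3 =>
    simp only [Prod.mk.injEq, true_and] at ha
    obtain ⟨rfl, rfl⟩ := ha
    exact ⟨q, h3, h2, rfl⟩
  | mid i' l q r h1 h2 h3 h4 h5 =>
    simp only [Prod.mk.injEq] at ha
    omega
  | leave i' l q h1 h2 h3 =>
    simp only [Prod.mk.injEq] at ha
    omega

/-- The arcs out of layer 2. -/
theorem AR.out2 {i z : ℕ} (h : AR n k A (2, i, z) b) : b.1 = 2 ∨
    ∃ l q r, l < k ∧ q < n ∧ r < n ∧ i < k ∧ A i l q r ∧ z = q * k + l ∧ b = (3, l, r * k + i + 1) := by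
  generalize ha : ((2, i, z) : Lab) = a at h
  cases h with
  | chain t' i' m h1 h2 h3 h4 =>
    simp only [Prod.mk.injEq] at ha
    exact Or.inl (by simp; omega)
  | rung t' i' p h1 h2 h3 =>
    simp only [Prod.mk.injEq] at ha
    omega
  | cross t' i' m h1 h2 h3 =>
    simp only [Prod.mk.injEq] at ha
    omega
  | enter i' l' q h1 h2 h3 =>
    simp only [Prod.mk.injEq] at ha
    omega
  | mid i' l q r h1 h2 h3 h4 h5 =>
    simp only [Prod.mk.injEq, true_and] at ha
    obtain ⟨rfl, rfl⟩ := ha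
    exact Or.inr ⟨l, q, r, h2, h3, h4, h1, h5, rfl, rfl⟩
  | leave i' l q h1 h2 h3 =>
    simp only [Prod.mk.injEq] at ha
    omega

/-- The arcs out of layer 4. -/
theorem AR.out4 {l z : ℕ} (h : AR n k A (4, l, z) b) : b.1 = 4 ∨
    ∃ i q, i < k ∧ q < n ∧ z = q * k + i ∧ b = (5, i, l) := by
  generalize ha : ((4, l, z) : Lab) = a at h
  cases h with
  | chain t' i' m h1 h2 h3 h4 =>
    simp only [Prod.mk.injEq] at ha
    exact Or.inl (by simp; omega)
  | rung t' i' p h1 h2 h3 =>
    simp only [Prod.mk.injEq] at ha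
    omega
  | cross t' i' m h1 h2 h3 =>
    simp only [Prod.mk.injEq] at ha
    omega
  | enter i' l' q h1 h2 h3 =>
    simp only [Prod.mk.injEq] at ha
    omega
  | mid i' l q r h1 h2 h3 h4 h5 =>
    simp only [Prod.mk.injEq] at ha
    omega
  | leave i' l q h1 h2 h3 =>
    simp only [Prod.mk.injEq, true_and] at ha
    obtain ⟨rfl, rfl⟩ := ha
    exact Or.inr ⟨i', q, h1, h3, rfl, rfl⟩

/-! ### Walks -/

/-- A walk which ends in the layer in which it begins runs through the chain. -/
theorem stay : ∀ (l : List Lab) (t i y z : ℕ), ((t, i, y) :: l).IsChain (AR n k A) →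
    ((t, i, y) :: l).getLast? = some (t, i, z) → ∀ m, y ≤ m → m ≤ z → (t, i, m) ∈ (t, i, y) :: l := by
  intro l
  induction l with
  | nil =>
    intro t i y z _ h m h1 h2
    simp only [List.getLast?_singleton, Option.some.injEq, Prod.mk.injEq, true_and] at h
    have : m = y := by omega
    subst this
    simp
  | cons b l ih =>
    intro t i y z h h' m h1 h2
    have hc := List.isChain_cons_cons.1 h
    have h3 : (b :: l).getLast? = some (t, i, z) := by
      rw [← h']
      simp
    have h4 : (t, i, z) ∈ b :: l := List.mem_of_getLast? h3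
    have h5 : b.1 ≤ t := le_of_chain (r := fun a : Lab => a.1)
      (hc.2.imp fun _ _ h => h.lev_le) _ h4
    have h6 : t ≤ b.1 := hc.1.lev_le
    have h7 : b = (t, i, y + 1) := hc.1.same (le_antisymm h6 h5)
    subst h7
    by_cases h8 : m = y
    · subst h8
      simp
    · exact List.mem_cons_of_mem _ (ih t i (y + 1) z hc.2 h3 m (by omega) h2)

/-- A walk through the two chains of a side. -/
theorem side : ∀ (l : List Lab) (t i a z : ℕ), (t = 1 ∨ t = 3) →
    ((t, i, a) :: l).IsChain (AR n k A) →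
    ((t, i, a) :: l).getLast? = some (t + 1, i, z) →
    ∃ x y, ((∃ p < n, x = p * k ∧ y = (p + 1) * k) ∨ (y < n * k ∧ x = y + 1)) ∧
      (∀ m, a ≤ m → m ≤ x → (t, i, m) ∈ (t, i, a) :: l) ∧
      (∀ m, y ≤ m → m ≤ z → (t + 1, i, m) ∈ (t, i, a) :: l) := by
  intro l
  induction l with
  | nil =>
    intro t i a z _ _ h
    simp at h
  | cons b l ih =>
    intro t i a z ht h h'
    have hc := List.isChain_cons_cons.1 h
    have h3 : (b :: l).getLast? = some (t + 1, i, z) := by
      rw [← h']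
      simp
    rcases hc.1.out1 ht with h4 | ⟨y, h4, h5⟩
    · subst h4
      obtain ⟨x, y, h6, h7, h8⟩ := ih t i (a + 1) z ht hc.2 h3
      refine ⟨x, y, h6, fun m h9 h10 => ?_, fun m h9 h10 => List.mem_cons_of_mem _ (h8 m h9 h10)⟩
      by_cases h11 : m = a
      · subst h11
        simp
      · exact List.mem_cons_of_mem _ (h7 m (by omega) h10)
    · subst h4
      refine ⟨a, y, h5, fun m h9 h10 => ?_, fun m h9 h10 =>
        List.mem_cons_of_mem _ (stay l (t + 1) i y z hc.2 h3 m h9 h10)⟩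
      have : m = a := le_antisymm h10 h9
      subst this
      simp

/-- The paths of a side choose a block. -/
theorem side_block {l : List Lab} {t i : ℕ} (ht : t = 1 ∨ t = 3) (hk : 0 < k)
    (h : ((t, i, 0) :: l).IsChain (AR n k A))
    (h' : ((t, i, 0) :: l).getLast? = some (t + 1, i, n * k)) :
    ∃ p < n, (∀ m, m ≤ p * k → (t, i, m) ∈ (t, i, 0) :: l) ∧
      (∀ m, (p + 1) * k ≤ m → m ≤ n * k → (t + 1, i, m) ∈ (t, i, 0) :: l) := by
  obtain ⟨x, y, h1, h2, h3⟩ := side l t i 0 (n * k) ht h h'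
  rcases h1 with ⟨p, hp, rfl, rfl⟩ | ⟨h4, rfl⟩
  · exact ⟨p, hp, fun m hm => h2 m (Nat.zero_le _) hm, h3⟩
  · have h5 : y / k < n := by
      rw [Nat.div_lt_iff_lt_mul hk]
      exact h4
    have h6 : y / k * k ≤ y := Nat.div_mul_le_self y k
    have h7 : y < (y / k + 1) * k := by
      have := Nat.lt_div_mul_add (a := y) hk
      rw [add_mul, one_mul]
      exact this
    refine ⟨y / k, h5, fun m hm => h2 m (Nat.zero_le _) (by omega), fun m hm hm' => ?_⟩
    exact h3 m (by omega) hm'

/-- A walk leaving the second chain of a side. -/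
theorem exit2 : ∀ (l : List Lab) (t i y : ℕ) (w : Lab),
    ((t, i, y) :: l).IsChain (AR n k A) →
    ((t, i, y) :: l).getLast? = some w → t < w.1 →
    ∃ z v l', y ≤ z ∧ (t, i, z) ∈ (t, i, y) :: l ∧ AR n k A (t, i, z) v ∧ t < v.1 ∧
      (v :: l').IsChain (AR n k A) ∧ (v :: l').getLast? = some w ∧
      ∀ u ∈ v :: l', u ∈ (t, i, y) :: l := by
  intro l
  induction l with
  | nil =>
    intro t i y w _ h h'
    simp only [List.getLast?_singleton, Option.some.injEq] at h
    subst h
    simp at h'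
  | cons b l ih =>
    intro t i y w h h' hw
    have hc := List.isChain_cons_cons.1 h
    have h3 : (b :: l).getLast? = some w := by
      rw [← h']
      simp
    by_cases h4 : t = b.1
    · have h5 : b = (t, i, y + 1) := hc.1.same h4
      subst h5
      obtain ⟨z, v, l', h6, h7, h8, h9, h10, h11, h12⟩ := ih t i (y + 1) w hc.2 h3 hw
      exact ⟨z, v, l', by omega, List.mem_cons_of_mem _ h7, h8, h9, h10, h11,
        fun u hu => List.mem_cons_of_mem _ (h12 u hu)⟩
    · have h5 : t ≤ b.1 := hc.1.lev_le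
      exact ⟨y, b, l, le_rfl, by simp, hc.1, by omega, hc.2, h3,
        fun u hu => List.mem_cons_of_mem _ hu⟩

/-- A walk leaving the first chain of a side. -/
theorem exit1 : ∀ (l : List Lab) (t i a : ℕ) (w : Lab), (t = 1 ∨ t = 3) →
    ((t, i, a) :: l).IsChain (AR n k A) →
    ((t, i, a) :: l).getLast? = some w → t + 1 < w.1 →
    ∃ x y z v l', a ≤ x ∧ y ≤ z ∧
      ((∃ p < n, x = p * k ∧ y = (p + 1) * k) ∨ (y < n * k ∧ x = y + 1)) ∧
      (t + 1, i, z) ∈ (t, i, a) :: l ∧ AR n k A (t + 1, i, z) v ∧ t + 1 < v.1 ∧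
      (v :: l').IsChain (AR n k A) ∧ (v :: l').getLast? = some w ∧
      ∀ u ∈ v :: l', u ∈ (t, i, a) :: l := by
  intro l
  induction l with
  | nil =>
    intro t i a w _ _ h h'
    simp only [List.getLast?_singleton, Option.some.injEq] at h
    subst h
    simp at h'
  | cons b l ih =>
    intro t i a w ht h h' hw
    have hc := List.isChain_cons_cons.1 h
    have h3 : (b :: l).getLast? = some w := by
      rw [← h']
      simp
    rcases hc.1.out1 ht with h4 | ⟨y, h4, h5⟩
    · subst h4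
      obtain ⟨x, y, z, v, l', h6, h7, h8, h9, h10, h11, h12, h13, h14⟩ :=
        ih t i (a + 1) w ht hc.2 h3 hw
      exact ⟨x, y, z, v, l', by omega, h7, h8, List.mem_cons_of_mem _ h9, h10, h11, h12, h13,
        fun u hu => List.mem_cons_of_mem _ (h14 u hu)⟩
    · subst h4
      obtain ⟨z, v, l', h6, h7, h8, h9, h10, h11, h12⟩ := exit2 l (t + 1) i y w hc.2 h3 hw
      exact ⟨a, y, z, v, l', le_rfl, h6, h5, List.mem_cons_of_mem _ h7, h8, h9, h10, h11,
        fun u hu => List.mem_cons_of_mem _ (h12 u hu)⟩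

/-- The blocks at which a messenger runs through a side. -/
theorem block_eq {p q q' l l' a x y z : ℕ} (hl : l < k) (hl' : l' < k)
    (ha : a = q * k + l + 1) (hz : z = q' * k + l') (hax : a ≤ x) (hyz : y ≤ z)
    (hxy : (∃ p < n, x = p * k ∧ y = (p + 1) * k) ∨ (y < n * k ∧ x = y + 1))
    (h1 : p * k < a) (h2 : z < (p + 1) * k) : q = p ∧ q' = p := by
  have mono : ∀ {u v : ℕ}, u ≤ v → u * k ≤ v * k := fun h => Nat.mul_le_mul_right k h
  have e1 : ∀ u : ℕ, (u + 1) * k = u * k + k := fun u => by ring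
  have hq : p ≤ q := by
    by_contra h
    have := mono (show q + 1 ≤ p by omega)
    rw [e1] at this
    omega
  have hq' : q' ≤ p := by
    by_contra h
    have := mono (show p + 1 ≤ q' by omega)
    omega
  rcases hxy with ⟨p', hp', rfl, rfl⟩ | ⟨-, rfl⟩
  · exfalso
    have h3 : p < p' := by
      by_contra h
      have h4 := mono (show p' ≤ p by omega)
      have h5 := mono hq
      omega
    have h4 := mono (show p + 1 ≤ p' + 1 by omega)
    omega
  · have h3 : q * k + l ≤ q' * k + l' := by omega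
    have h4 : q ≤ q' := by
      by_contra h
      have := mono (show q' + 1 ≤ q by omega)
      rw [e1] at this
      omega
    omega

/-- **From linkages to cliques.** -/
theorem allowed_of_linkage {p r : ℕ → ℕ} {i l : ℕ}
    {U W : Lab → Prop}
    (hU : ∀ m, m ≤ p i * k → U (1, i, m))
    (hU' : ∀ m, (p i + 1) * k ≤ m → m ≤ n * k → U (2, i, m))
    (hW : ∀ m, m ≤ r l * k → W (3, l, m))
    (hW' : ∀ m, (r l + 1) * k ≤ m → m ≤ n * k → W (4, l, m))
    {w : List Lab} (hw : w.IsChain (AR n k A)) (hh : w.head? = some (0, i, l))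
    (hlast : w.getLast? = some (5, i, l))
    (hdU : ∀ v ∈ w, ¬ U v) (hdW : ∀ v ∈ w, ¬ W v) : A i l (p i) (r l) := by
  cases w with
  | nil => simp at hh
  | cons v0 w =>
  simp only [List.head?_cons, Option.some.injEq] at hh
  subst hh
  cases w with
  | nil => simp at hlast
  | cons v1 w =>
  have hc := List.isChain_cons_cons.1 hw
  have h3 : (v1 :: w).getLast? = some (5, i, l) := by
    rw [← hlast]
    simp
  obtain ⟨q, hq, hl, rfl⟩ := hc.1.out0
  obtain ⟨x, y, z, v, l', h6, h7, h8, h9, h10, h11, h12, h13, h14⟩ :=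
    exit1 w 1 i (q * k + l + 1) (5, i, l) (Or.inl rfl) hc.2 h3 (by simp)
  simp only [Nat.reduceAdd] at h9 h10 h11
  rcases h10.out2 with h15 | ⟨l₃, q₂, r₂, hl₃, hq₂, hr₂, hi, hA, hz, hv⟩
  · omega
  subst hv
  obtain ⟨x', y', z', v', l'', g6, g7, g8, g9, g10, g11, g12, g13, g14⟩ :=
    exit1 l' 3 l₃ (r₂ * k + i + 1) (5, i, l) (Or.inr rfl) h12 h13 (by simp)
  simp only [Nat.reduceAdd] at g9 g10 g11
  rcases g10.out4 with g15 | ⟨i', q₄, hi', hq₄, hz', hv'⟩
  · omega
  subst hv'
  have hend : l'' = [] := by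
    cases l'' with
    | nil => rfl
    | cons v'' l'' =>
      have := (List.isChain_cons_cons.1 g12).1.lev_lt
      simp at this
  subst hend
  simp only [List.getLast?_singleton, Option.some.injEq, Prod.mk.injEq, true_and] at g13
  obtain ⟨rfl, rfl⟩ := g13
  -- the left side
  have hmem1 : ((1, i', q * k + l₃ + 1) : Lab) ∈ (0, i', l₃) :: (1, i', q * k + l₃ + 1) :: w := by
    simp
  have hmem2 : ((2, i', z) : Lab) ∈ (0, i', l₃) :: (1, i', q * k + l₃ + 1) :: w :=
    List.mem_cons_of_mem _ h9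
  have c1 : p i' * k < q * k + l₃ + 1 := by
    by_contra h
    exact hdU _ hmem1 (hU _ (by omega))
  have c2 : z < (p i' + 1) * k := by
    by_contra h
    have := blk_lt hq₂ hl₃
    exact hdU _ hmem2 (hU' _ (by omega) (by omega))
  obtain ⟨-, e2⟩ := block_eq hl hl₃ rfl hz h6 h7 h8 c1 c2
  -- the right side
  have hmem3 : ((3, l₃, r₂ * k + i' + 1) : Lab) ∈
      (0, i', l₃) :: (1, i', q * k + l₃ + 1) :: w :=
    List.mem_cons_of_mem _ (h14 _ (by simp))
  have hmem4 : ((4, l₃, z') : Lab) ∈ (0, i', l₃) :: (1, i', q * k + l₃ + 1) :: w :=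
    List.mem_cons_of_mem _ (h14 _ g9)
  have d1 : r l₃ * k < r₂ * k + i' + 1 := by
    by_contra h
    exact hdW _ hmem3 (hW _ (by omega))
  have d2 : z' < (r l₃ + 1) * k := by
    by_contra h
    have := blk_lt hq₄ hi'
    exact hdW _ hmem4 (hW' _ (by omega) (by omega))
  obtain ⟨f1, -⟩ := block_eq hi' hi' rfl hz' g6 g7 g8 d1 d2
  rw [← e2, ← f1]
  exact hA

/-! ### Construction of paths -/

/-- A piece of a chain. -/
theorem seg {t i a : ℕ} (ht : 1 ≤ t) (ht' : t ≤ 4) (hi : i < k) : ∀ d : ℕ, a + d ≤ n * k →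
    ∃ w : List Lab, w.IsChain (AR n k A) ∧ w.head? = some (t, i, a) ∧
      w.getLast? = some (t, i, a + d) ∧ ∀ v ∈ w, ∃ m, v = (t, i, m) ∧ a ≤ m ∧ m ≤ a + d := by
  intro d
  induction d with
  | zero =>
    intro _
    refine ⟨[(t, i, a)], List.isChain_singleton _, rfl, rfl, ?_⟩
    intro v hv
    rw [List.mem_singleton] at hv
    exact ⟨a, hv, le_rfl, le_rfl⟩
  | succ d ih =>
    intro h
    obtain ⟨w, h1, h2, h3, h4⟩ := ih (by omega)
    have hne : w ≠ [] := by
      rintro rfl
      simp at h2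
    refine ⟨w ++ [(t, i, a + (d + 1))], ?_, ?_, ?_, ?_⟩
    · refine h1.append (List.isChain_singleton _) ?_
      intro x hx y hy
      rw [h3] at hx
      simp only [Option.mem_def, Option.some.injEq] at hx
      simp only [List.head?_cons, Option.mem_def, Option.some.injEq] at hy
      subst hx hy
      exact AR.chain t i (a + d) ht ht' hi (by omega)
    · rw [List.head?_append_of_ne_nil _ hne, h2]
    · simp
    · intro v hv
      rw [List.mem_append, List.mem_singleton] at hv
      rcases hv with hv | hv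
      · obtain ⟨m, h5, h6, h7⟩ := h4 v hv
        exact ⟨m, h5, h6, by omega⟩
      · exact ⟨a + (d + 1), hv, by omega, le_rfl⟩

/-- The path of a side belonging to the vertex `p`. -/
theorem side_path {t i p : ℕ} (ht : t = 1 ∨ t = 3) (hi : i < k) (hp : p < n) :
    ∃ w : List Lab, w.IsChain (AR n k A) ∧ w.head? = some (t, i, 0) ∧
      w.getLast? = some (t + 1, i, n * k) ∧
      ∀ v ∈ w, (∃ m, v = (t, i, m) ∧ m ≤ p * k) ∨ (∃ m, v = (t + 1, i, m) ∧ (p + 1) * k ≤ m ∧
        m ≤ n * k) := by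
  have h1 : (p + 1) * k ≤ n * k := Nat.mul_le_mul_right k hp
  have h2 : p * k ≤ (p + 1) * k := Nat.mul_le_mul_right k (by omega)
  obtain ⟨w, a1, a2, a3, a4⟩ := seg (n := n) (k := k) (A := A) (t := t) (i := i) (a := 0)
    (by omega) (by omega) hi (p * k) (by omega)
  obtain ⟨w', b1, b2, b3, b4⟩ := seg (n := n) (k := k) (A := A) (t := t + 1) (i := i)
    (a := (p + 1) * k) (by omega) (by omega) hi (n * k - (p + 1) * k) (by omega)
  have hne : w ≠ [] := by
    rintro rfl
    simp at a2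
  have hne' : w' ≠ [] := by
    rintro rfl
    simp at b2
  refine ⟨w ++ w', ?_, ?_, ?_, ?_⟩
  · refine a1.append b1 ?_
    intro x hx y hy
    rw [a3] at hx
    rw [b2] at hy
    simp only [Option.mem_def, Option.some.injEq, zero_add] at hx hy
    subst hx hy
    exact AR.rung t i p ht hi hp
  · rw [List.head?_append_of_ne_nil _ hne, a2]
  · rw [List.getLast?_append_of_ne_nil _ hne', b3]
    congr 3
    omega
  · intro v hv
    rw [List.mem_append] at hv
    rcases hv with hv | hv
    · obtain ⟨m, h5, h6, h7⟩ := a4 v hv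
      exact Or.inl ⟨m, h5, by omega⟩
    · obtain ⟨m, h5, h6, h7⟩ := b4 v hv
      exact Or.inr ⟨m, h5, h6, by omega⟩

/-- The path of a messenger. -/
def mess (k : ℕ) (p : ℕ → ℕ) (i l : ℕ) : List Lab :=
  [(0, i, l), (1, i, p i * k + l + 1), (2, i, p i * k + l), (3, l, p l * k + i + 1),
    (4, l, p l * k + i), (5, i, l)]

theorem mess_chain {p : ℕ → ℕ} {i l : ℕ} (hi : i < k) (hl : l < k) (hp : p i < n) (hp' : p l < n)
    (hA : A i l (p i) (p l)) : (mess k p i l).IsChain (AR n k A) := by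
  unfold mess
  simp only [List.isChain_cons_cons]
  refine ⟨AR.enter i l _ hi hl hp, AR.cross 1 i _ (Or.inl rfl) hi (blk_lt hp hl),
    AR.mid i l _ _ hi hl hp hp' hA, AR.cross 3 l _ (Or.inr rfl) hl (blk_lt hp' hi),
    AR.leave i l _ hi hl hp', List.isChain_singleton _⟩

end

end Pool.Agent.D0H58.EA
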