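import Pool.Agent.D0H58.EA.Dgm
import Pool.Agent.R550.W1.Clique
import Pool.Agent.R550.W1.Wrap

/-!
# The reduction from Clique to LINKAGE is computable in polynomial time
-/

namespace Pool.Agent.D0H58.EA

open Pool.Agent.NPC Pool.Agent.H557R2 Pool.Agent.H557R2.Fpt Pool.Agent.R550.DS
open Pool.Agent.R550.W1 (Inp clique_iff)

/-- the allowed pairs -/
abbrev AL (n : ℕ) (x : List Bool) (i l q r : ℕ) : Prop := alw n x i l q r = true

/-- the arcs, as a test -/
def arcB (y : Inp) (a b : Lab) : Bool :=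
  (decide (1 ≤ a.1) && decide (a.1 ≤ 4) && decide (b.1 = a.1) && decide (b.2.1 = a.2.1) &&
    decide (a.2.1 < y.2.2.length) && decide (a.2.2 < y.1.length * y.2.2.length) &&
    decide (b.2.2 = a.2.2 + 1)) ||
  ((decide (a.1 = 1) || decide (a.1 = 3)) && decide (b.1 = a.1 + 1) && decide (b.2.1 = a.2.1) &&
    decide (a.2.1 < y.2.2.length) && (List.range y.1.length).any (fun p =>
      decide (a.2.2 = p * y.2.2.length) && decide (b.2.2 = (p + 1) * y.2.2.length))) ||
  ((decide (a.1 = 1) || decide (a.1 = 3)) && decide (b.1 = a.1 + 1) && decide (b.2.1 = a.2.1) &&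
    decide (a.2.1 < y.2.2.length) && decide (b.2.2 < y.1.length * y.2.2.length) &&
    decide (a.2.2 = b.2.2 + 1)) ||
  (decide (a.1 = 0) && decide (b.1 = 1) && decide (b.2.1 = a.2.1) &&
    decide (a.2.1 < y.2.2.length) && decide (a.2.2 < y.2.2.length) &&
    (List.range y.1.length).any (fun q => decide (b.2.2 = q * y.2.2.length + a.2.2 + 1))) ||
  (decide (a.1 = 2) && decide (b.1 = 3) && decide (a.2.1 < y.2.2.length) &&
    decide (b.2.1 < y.2.2.length) && (List.range y.1.length).any (fun q =>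
      decide (a.2.2 = q * y.2.2.length + b.2.1) && (List.range y.1.length).any (fun r =>
        decide (b.2.2 = r * y.2.2.length + a.2.1 + 1) && alw y.1.length y.2.1 a.2.1 b.2.1 q r))) ||
  (decide (a.1 = 4) && decide (b.1 = 5) && decide (b.2.2 = a.2.1) &&
    decide (a.2.1 < y.2.2.length) && decide (b.2.1 < y.2.2.length) &&
    (List.range y.1.length).any (fun q => decide (a.2.2 = q * y.2.2.length + b.2.1)))

theorem arcB_iff (y : Inp) (a b : Lab) : arcB y a b = true ↔
    AR y.1.length y.2.2.length (AL y.1.length y.2.1) a b := by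
  generalize hk : y.2.2.length = k
  generalize hn : y.1.length = n
  obtain ⟨t, i, m⟩ := a
  obtain ⟨t', i', m'⟩ := b
  unfold arcB
  simp only [hk, hn, Bool.or_eq_true, Bool.and_eq_true, decide_eq_true_eq, List.any_eq_true,
    List.mem_range]
  constructor
  · rintro (((((h | h) | h) | h) | h) | h)
    · obtain ⟨⟨⟨⟨⟨⟨h1, h2⟩, rfl⟩, rfl⟩, h5⟩, h6⟩, rfl⟩ := h
      exact AR.chain _ _ _ h1 h2 h5 h6
    · obtain ⟨⟨⟨⟨h1, rfl⟩, rfl⟩, h4⟩, p, hp, rfl, rfl⟩ := h
      exact AR.rung _ _ _ h1 h4 hp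
    · obtain ⟨⟨⟨⟨⟨h1, rfl⟩, rfl⟩, h4⟩, h5⟩, rfl⟩ := h
      exact AR.cross _ _ _ h1 h4 h5
    · obtain ⟨⟨⟨⟨⟨rfl, rfl⟩, rfl⟩, h4⟩, h5⟩, q, hq, rfl⟩ := h
      exact AR.enter _ _ _ h4 h5 hq
    · obtain ⟨⟨⟨⟨rfl, rfl⟩, h3⟩, h4⟩, q, hq, rfl, r, hr, rfl, h5⟩ := h
      exact AR.mid _ _ _ _ h3 h4 hq hr h5
    · obtain ⟨⟨⟨⟨⟨rfl, rfl⟩, rfl⟩, h4⟩, h5⟩, q, hq, rfl⟩ := h
      exact AR.leave _ _ _ h5 h4 hq
  · intro h
    generalize ha : ((t, i, m) : Lab) = a at h
    generalize hb : ((t', i', m') : Lab) = b at h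
    cases h with
    | chain s j l h1 h2 h3 h4 =>
      simp only [Prod.mk.injEq] at ha hb
      obtain ⟨rfl, rfl, rfl⟩ := ha
      obtain ⟨rfl, rfl, rfl⟩ := hb
      exact Or.inl (Or.inl (Or.inl (Or.inl (Or.inl ⟨⟨⟨⟨⟨⟨h1, h2⟩, rfl⟩, rfl⟩, h3⟩, h4⟩, rfl⟩))))
    | rung s j p h1 h2 h3 =>
      simp only [Prod.mk.injEq] at ha hb
      obtain ⟨rfl, rfl, rfl⟩ := ha
      obtain ⟨rfl, rfl, rfl⟩ := hb
      exact Or.inl (Or.inl (Or.inl (Or.inl (Or.inr ⟨⟨⟨⟨h1, rfl⟩, rfl⟩, h2⟩, p, h3, rfl, rfl⟩))))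
    | cross s j l h1 h2 h3 =>
      simp only [Prod.mk.injEq] at ha hb
      obtain ⟨rfl, rfl, rfl⟩ := ha
      obtain ⟨rfl, rfl, rfl⟩ := hb
      exact Or.inl (Or.inl (Or.inl (Or.inr ⟨⟨⟨⟨⟨h1, rfl⟩, rfl⟩, h2⟩, h3⟩, rfl⟩)))
    | enter j l q h1 h2 h3 =>
      simp only [Prod.mk.injEq] at ha hb
      obtain ⟨rfl, rfl, rfl⟩ := ha
      obtain ⟨rfl, rfl, rfl⟩ := hb
      exact Or.inl (Or.inl (Or.inr ⟨⟨⟨⟨⟨rfl, rfl⟩, rfl⟩, h1⟩, h2⟩, q, h3, rfl⟩))
    | mid j l q r h1 h2 h3 h4 h5 =>
      simp only [Prod.mk.injEq] at ha hb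
      obtain ⟨rfl, rfl, rfl⟩ := ha
      obtain ⟨rfl, rfl, rfl⟩ := hb
      exact Or.inl (Or.inr ⟨⟨⟨⟨rfl, rfl⟩, h1⟩, h2⟩, q, h3, rfl, r, h4, rfl, h5⟩)
    | leave j l q h1 h2 h3 =>
      simp only [Prod.mk.injEq] at ha hb
      obtain ⟨rfl, rfl, rfl⟩ := ha
      obtain ⟨rfl, rfl, rfl⟩ := hb
      exact Or.inr ⟨⟨⟨⟨⟨rfl, rfl⟩, rfl⟩, h2⟩, h1⟩, q, h3, rfl⟩

/-- the adjacency matrix of the digraph -/
def mat (y : Inp) : List (List Bool) :=
  (List.range (size y.1.length y.2.2.length)).map fun u =>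
    (List.range (size y.1.length y.2.2.length)).map fun v =>
      arcB y (lab y.1.length y.2.2.length u) (lab y.1.length y.2.2.length v)

theorem ofFn_eq_map_range {α : Type} {N : ℕ} (f : ℕ → α) :
    List.ofFn (fun i : Fin N => f i) = (List.range N).map f := by
  apply List.ext_getElem
  · simp
  · intro i h1 h2
    simp

theorem mat_eq (y : Inp) {n k : ℕ} (hn : y.1.length = n) (hk : y.2.2.length = k) : mat y =
    matOf (dig n k (AL n y.2.1)) := by
  subst hn hk
  unfold mat matOf
  rw [← ofFn_eq_map_range]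
  congr 1
  funext u
  rw [← ofFn_eq_map_range]
  congr 1
  funext v
  rw [Bool.eq_iff_iff, arcB_iff]
  simp only [decide_eq_true_eq]
  exact Iff.rfl

/-- the instance of LINKAGE -/
def instA (y : Inp) : List (List Bool) × List (ℕ × ℕ) :=
  (mat y, (terms y.1.length y.2.2.length).map fun q =>
    (idx y.1.length y.2.2.length q.1, idx y.1.length y.2.2.length q.2))

/-! ### Polynomial time -/

theorem poly_arcB : NPC.Poly (fun z : Inp × Lab × Lab => arcB z.1 z.2.1 z.2.2) := by
  unfold arcB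
  have h0 : NPC.Poly (fun z : Inp × Lab × Lab => List.range z.1.1.length) :=
    (UPoly.length (by fun_prop)).range
  have h1 : NPC.Poly (fun z : (Inp × Lab × Lab) × ℕ => List.range z.1.1.1.length) :=
    (UPoly.length (by fun_prop)).range
  have h2 : NPC.Poly (fun z : ((Inp × Lab × Lab) × ℕ) × ℕ => alw z.1.1.1.1.length z.1.1.1.2.1
      z.1.1.2.1.2.1 z.1.1.2.2.2.1 z.1.2 z.2) :=
    poly_alw (by fun_prop) (by fun_prop) (by fun_prop) (by fun_prop) (by fun_prop) (by fun_prop)
  fun_prop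

theorem upoly_size : UPoly (fun y : Inp => size y.1.length y.2.2.length) := by
  unfold size bw
  have hn : UPoly (fun y : Inp => y.1.length) := UPoly.length (by fun_prop)
  have hk : UPoly (fun y : Inp => y.2.2.length) := UPoly.length (by fun_prop)
  exact ((UPoly.const 6).mul hk).mul (((hn.mul hk).add hk).add (UPoly.const 1))

theorem poly_lab : NPC.Poly (fun z : Inp × ℕ => lab z.1.1.length z.1.2.2.length z.2) := by
  unfold lab bw
  fun_prop

theorem poly_mat : NPC.Poly mat := by
  unfold mat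
  have h0 := upoly_size.range
  have h1 : NPC.Poly (fun z : Inp × ℕ => List.range (size z.1.1.length z.1.2.2.length)) :=
    h0.comp (NPC.Poly.fst NPC.Poly.id)
  have h2 : NPC.Poly (fun z : (Inp × ℕ) × ℕ => arcB z.1.1
      (lab z.1.1.1.length z.1.1.2.2.length z.1.2) (lab z.1.1.1.length z.1.1.2.2.length z.2)) := by
    have g1 : NPC.Poly (fun z : (Inp × ℕ) × ℕ => lab z.1.1.1.length z.1.1.2.2.length z.1.2) :=
      poly_lab.comp (NPC.Poly.fst NPC.Poly.id)
    have g2 : NPC.Poly (fun z : (Inp × ℕ) × ℕ => lab z.1.1.1.length z.1.1.2.2.length z.2) :=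
      poly_lab.comp (f := fun z : (Inp × ℕ) × ℕ => (z.1.1, z.2)) (by fun_prop)
    have g3 : NPC.Poly (fun z : (Inp × ℕ) × ℕ => z.1.1) := by fun_prop
    have g4 : NPC.Poly (fun z : (Inp × ℕ) × ℕ => ((z.1.1,
      lab z.1.1.1.length z.1.1.2.2.length z.1.2, lab z.1.1.1.length z.1.1.2.2.length z.2) :
        Inp × Lab × Lab)) := NPC.Poly.pair g3 (NPC.Poly.pair g1 g2)
    exact NPC.Poly.comp (g := fun z : Inp × Lab × Lab => arcB z.1 z.2.1 z.2.2)
      (f := fun z : (Inp × ℕ) × ℕ => ((z.1.1,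
        lab z.1.1.1.length z.1.1.2.2.length z.1.2, lab z.1.1.1.length z.1.1.2.2.length z.2) :
        Inp × Lab × Lab)) poly_arcB g4
  refine NPC.Poly.map (F := fun (y : Inp) u =>
    (List.range (size y.1.length y.2.2.length)).map fun v =>
      arcB y (lab y.1.length y.2.2.length u) (lab y.1.length y.2.2.length v)) h0 ?_
  exact NPC.Poly.map (F := fun (z : Inp × ℕ) v =>
    arcB z.1 (lab z.1.1.length z.1.2.2.length z.2) (lab z.1.1.length z.1.2.2.length v)) h1 h2

theorem poly_terms : NPC.Poly (fun y : Inp => terms y.1.length y.2.2.length) := by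
  unfold terms
  have hr : NPC.Poly (fun y : Inp => List.range y.2.2.length) :=
    (UPoly.length (by fun_prop)).range
  have hp := Pool.Agent.R550.W1.poly_product hr hr
  refine NPC.Poly.append ?_ (NPC.Poly.append ?_ ?_)
  · exact NPC.Poly.map (F := fun (y : Inp) i =>
      (((1, i, 0) : Lab), ((2, i, y.1.length * y.2.2.length) : Lab))) hr (by fun_prop)
  · exact NPC.Poly.map (F := fun (y : Inp) i =>
      (((3, i, 0) : Lab), ((4, i, y.1.length * y.2.2.length) : Lab))) hr (by fun_prop)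
  · exact NPC.Poly.map (F := fun (_ : Inp) (q : ℕ × ℕ) =>
      (((0, q.1, q.2) : Lab), ((5, q.1, q.2) : Lab))) hp (by fun_prop)

theorem poly_idx {α : Type} [TEnc α] {y : α → Inp} {a : α → Lab} (hy : NPC.Poly y)
    (ha : NPC.Poly a) : NPC.Poly (fun t => idx (y t).1.length (y t).2.2.length (a t)) := by
  unfold idx bw
  fun_prop

theorem poly_instA : NPC.Poly instA := by
  unfold instA
  refine NPC.Poly.pair poly_mat ?_
  exact NPC.Poly.map (F := fun (y : Inp) (q : Lab × Lab) =>
    (idx y.1.length y.2.2.length q.1, idx y.1.length y.2.2.length q.2)) poly_terms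
    (NPC.Poly.pair (poly_idx (by fun_prop) (by fun_prop)) (poly_idx (by fun_prop) (by fun_prop)))

/-! ### The total reduction -/

/-- the reduction from coded instances of Clique; inputs which are not codes of graphs are mapped
to a no-instance -/
def instR (y : List Bool × List Unit) : List (List Bool) × List (ℕ × ℕ) :=
  (H557R2.Mve.findn y.1).elim
    (([[false, false], [false, false]], [(0, 1)]) : List (List Bool) × List (ℕ × ℕ)) fun n =>
    instA ((List.range (min n y.1.length)).map (fun _ => ()), y.1, y.2)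

theorem poly_instR : NPC.Poly instR := by
  unfold instR
  refine NPC.Poly.optElim (H557R2.Mve.poly_findn.comp (NPC.Poly.fst NPC.Poly.id))
    (NPC.Poly.const _) (poly_instA.comp ?_)
  refine NPC.Poly.pair ?_ (by fun_prop)
  refine NPC.Poly.map (F := fun _ _ => ()) (UPoly.range ?_) (NPC.Poly.const _)
  exact UPoly.of_le (n := fun p : (List Bool × List Unit) × ℕ => p.1.1.length)
    (NPC.Poly.min (NPC.Poly.snd NPC.Poly.id)
      (UPoly.length (NPC.Poly.fst (NPC.Poly.fst NPC.Poly.id))).toPoly)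
    (UPoly.length (NPC.Poly.fst (NPC.Poly.fst NPC.Poly.id))) (fun p => Nat.min_le_right _ _)

/-- the digraph with two vertices and no arcs -/
def empty2 : Dig (Fin 2) := ⟨fun _ _ => False, fun _ h => h⟩

theorem empty2_layered : Layered empty2 5 (fun _ => 0) (fun _ => 0) where
  rk_lt _ _ h := h.elim
  lev_le _ _ h := h.elim
  lev_lt _ _ h := h.elim
  lev_pos _ _ h := h.elim
  uniq _ _ _ h := h.elim

theorem empty2_no : ¬ HasLinkage empty2 [(0, 1)] := by
  rintro ⟨L, ⟨hL, -⟩, h⟩
  obtain ⟨w, hw, h1, h2⟩ := h (0, 1) (by simp)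
  have h3 := (hL w hw).1.2
  cases w with
  | nil => simp at h1
  | cons a w =>
    cases w with
    | nil =>
      simp only [List.head?_cons, Option.some.injEq, List.getLast?_singleton] at h1 h2
      rw [h1] at h2
      exact absurd h2 (by decide)
    | cons b w => exact (List.isChain_cons_cons.1 h3).1

theorem alw_self {n i q r : ℕ} {x : List Bool} (h : AL n x i i q r) : q = r := by
  unfold AL alw at h
  simpa using h

/-- **The reduction is correct.** -/
theorem instR_spec (x : List Bool) (k : ℕ) :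
    ∃ (n : ℕ) (D : Dig (Fin n)) (S : List (Fin n × Fin n)),
      bits (instR (x, List.replicate k ())) = code D S ∧ S.length ≤ k * k + 2 * k + 1 ∧
      Acyclic D ∧ ea D ≤ 5 ∧ ((x, k) ∈ pClique ↔ HasLinkage D S) := by
  cases h1 : H557R2.Mve.findn x with
  | none =>
    refine ⟨2, empty2, [(0, 1)], ?_, by simp, acyclic_of_rk empty2_layered.rk_lt,
      ea_le empty2_layered, ?_⟩
    · unfold instR code
      simp only [h1, Option.elim]
      congr 2
      unfold matOf empty2
      simp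
    · constructor
      · rintro ⟨n, hn, -⟩
        exact absurd hn (H557R2.Mve.findn_none h1 n)
      · intro h
        exact absurd h empty2_no
  | some n =>
    have h2 := H557R2.Mve.findn_some h1
    have h3 : min n x.length = n := by
      rw [h2]
      exact min_eq_left (Nat.le_mul_self n)
    have hy : instR (x, List.replicate k ()) =
        instA ((List.range n).map (fun _ => ()), x, List.replicate k ()) := by
      unfold instR
      simp only [h1, Option.elim, h3]
    have hn : ((List.range n).map (fun _ => ())).length = n := by simp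
    have hk : (List.replicate k ()).length = k := by simp
    obtain ⟨S, hS⟩ := exists_pairs n k
    refine ⟨size n k, dig n k (AL n x), S, ?_, ?_, acyclic_dig n k _, ea_dig n k _, ?_⟩
    · rw [hy]
      unfold instA code
      have e1 := mat_eq ((List.range n).map (fun _ => ()), x, List.replicate k ()) hn hk
      have e2 : (terms n k).map (fun q => (idx n k q.1, idx n k q.2)) =
          S.map (fun p => (p.1.1, p.2.1)) := by
        rw [← hS, List.map_map]
        refine List.map_congr_left fun p _ => ?_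
        simp only [Function.comp_apply, idx_lab]
      simp only [hn, hk]
      rw [e1, e2]
    · have e2 : S.length = (terms n k).length := by rw [← hS, List.length_map]
      rw [e2, length_terms]
      omega
    · rw [H557R2.Mve.mem_pClique_iff h2, clique_iff, hasLinkage_iff (fun i q r h => alw_self h) hS]

end Pool.Agent.D0H58.EA
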