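import Pool.Agent.D0H58.EA.Walk

/-!
# The minima and maxima in the definition of ear anonymity are attained
-/

namespace Pool.Agent.D0H58.EA

variable {V : Type}

/-- For a maximal ear with at least one arc, the sequence of all its arcs is identifying; so the
minimum in the definition of `eaOf` is over a nonempty set. -/
theorem identifies_arcs {D : Dig V} {w : List V} (hw : IsMaxEar D w) (h : arcs w ≠ []) :
    Identifies D w (arcs w) := by
  refine ⟨h, List.Sublist.refl _, fun w' hw' hs => hw.2 w' hw' ⟨fun v hv => ?_, fun e he =>
    hs.subset he⟩⟩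
  match w, h, hv, hs with
  | [], h, _, _ => exact absurd rfl h
  | [a], h, _, _ => exact absurd rfl h
  | a :: b :: l, _, hv, hs =>
    have key : ∀ (a b : V) (l : List V), ∀ v ∈ a :: b :: l,
        ∃ e ∈ arcs (a :: b :: l), v = e.1 ∨ v = e.2 := by
      intro a b l
      induction l generalizing a b with
      | nil =>
        intro v hv
        simp only [List.mem_cons, List.not_mem_nil, or_false] at hv
        exact ⟨(a, b), by simp [arcs_cons_cons], hv⟩
      | cons c l ih =>
        intro v hv
        rw [List.mem_cons] at hv
        rcases hv with rfl | hv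
        · exact ⟨(v, b), by simp [arcs_cons_cons], Or.inl rfl⟩
        · obtain ⟨e, he, h⟩ := ih b c v hv
          exact ⟨e, by rw [arcs_cons_cons]; exact List.mem_cons_of_mem _ he, h⟩
    obtain ⟨e, he, h | h⟩ := key a b l v hv
    · rw [h]
      exact fst_mem (hs.subset he)
    · rw [h]
      exact snd_mem' (hs.subset he)

/-- the length of an ear in a finite digraph -/
theorem length_ear_le [Fintype V] {D : Dig V} {w : List V} (hw : IsEar D w) :
    w.length ≤ Fintype.card V + 1 := by
  rcases hw with hw | hw
  · exact (hw.2.length_le_card).trans (Nat.le_succ _)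
  · have h1 := hw.2.2.2.length_le_card
    rw [List.length_dropLast] at h1
    omega

theorem eaOf_le_length {D : Dig V} {w : List V} (hw : IsMaxEar D w) :
    eaOf D w ≤ (arcs w).length := by
  classical
  unfold eaOf
  split_ifs with h
  · exact Nat.zero_le _
  · have hmem : (arcs w).length ∈ {m | ∃ s, Identifies D w s ∧ s.length = m} :=
      ⟨_, identifies_arcs hw h, rfl⟩
    exact Nat.sInf_le hmem

/-- In a finite digraph the ear anonymity is an upper bound for the ear anonymity of the maximal
ears: the supremum in the definition of `ea` is that of a bounded set. -/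
theorem eaOf_le_ea [Fintype V] {D : Dig V} {w : List V} (hw : IsMaxEar D w) :
    eaOf D w ≤ ea D := by
  refine le_csSup ⟨Fintype.card V + 1, ?_⟩ ⟨w, hw, rfl⟩
  rintro m ⟨w', hw', rfl⟩
  refine (eaOf_le_length hw').trans ((?_ : (arcs w').length ≤ w'.length).trans
    (length_ear_le hw'.1))
  unfold arcs
  rw [List.length_zip]
  exact Nat.min_le_left _ _

end Pool.Agent.D0H58.EA
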