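import Pool.Agent.D0H58.EA.Red

/-!
# Hardness of LINKAGE on acyclic digraphs of bounded ear anonymity
-/

namespace Pool.Agent.D0H58.EA

open Pool.Agent.NPC Pool.Agent.H557R2 Pool.Agent.H557R2.Fpt Pool.Agent.H642R2.TMSim Turing

/-! ### `W[1]`-hardness -/

/-- the reduction with the parameter in unary -/
def redU (y : List Bool × List Unit) : List Bool × List Unit :=
  (bits (instR y), List.replicate (instR y).2.length ())

theorem poly_redU : NPC.Poly redU :=
  NPC.Poly.pair (H557R2.Mve.poly_bits poly_instR) (UPoly.length (NPC.Poly.snd poly_instR))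

/-- the reduction -/
def redK (y : List Bool × ℕ) : List Bool × ℕ :=
  (bits (instR (y.1, List.replicate y.2 ())), (instR (y.1, List.replicate y.2 ())).2.length)

theorem pc_redK : PC pcode pcode redK := by
  have h : PC (bits : List Bool × List Unit → List Bool) (bits : List Bool × List Unit → List Bool)
    redU := poly_redU
  obtain ⟨c, p, h⟩ := h
  exact ⟨c, p, fun y => h (y.1, List.replicate y.2 ())⟩

theorem length_snd_of_code {n : ℕ} {D : Dig (Fin n)} {S : List (Fin n × Fin n)}
    {z : List (List Bool) × List (ℕ × ℕ)} (h : bits z = code D S) : z.2.length = S.length := by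
  have h1 : z = (matOf D, S.map fun p => (p.1.1, p.2.1)) := bits_injective h
  rw [h1]
  simp

theorem matOf_inj {n n' : ℕ} {D : Dig (Fin n)} {D' : Dig (Fin n')} (h : matOf D = matOf D') :
    ∃ e : n = n', ∀ i j, D.Arc i j ↔ D'.Arc (Fin.cast e i) (Fin.cast e j) := by
  have h1 : n = n' := by
    have := congrArg List.length h
    simpa [matOf] using this
  subst h1
  refine ⟨rfl, fun i j => ?_⟩
  unfold matOf at h
  have h2 := List.ofFn_injective h
  have h3 := congrFun h2 i
  have h4 := congrFun (List.ofFn_injective h3) j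
  simpa using h4

theorem code_inj {n n' : ℕ} {D : Dig (Fin n)} {S : List (Fin n × Fin n)} {D' : Dig (Fin n')}
    {S' : List (Fin n' × Fin n')} (h : code D S = code D' S') (hl : HasLinkage D S) :
    HasLinkage D' S' := by
  have h1 := bits_injective h
  rw [Prod.mk.injEq] at h1
  obtain ⟨e, h2⟩ := matOf_inj h1.1
  subst e
  have h3 : D = D' := by
    cases D with
    | mk A hA =>
      cases D' with
      | mk A' hA' =>
        congr 1
        funext i j
        exact propext (h2 i j)
  have h4 : S = S' := by
    refine (List.map_injective_iff (f := fun p : Fin n × Fin n => (p.1.1, p.2.1))).2 ?_ h1.2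
    rintro ⟨a, b⟩ ⟨c, d⟩ h5
    simp only [Prod.mk.injEq] at h5
    exact Prod.ext (Fin.ext h5.1) (Fin.ext h5.2)
  rw [← h3, ← h4]
  exact hl

/-- **LINKAGE is `W[1]`-hard on acyclic digraphs of ear anonymity at most 5.** -/
theorem w1Hard_linkage : W1Hard (linkageProblem 5) := by
  refine w1Hard_of (g' := fun k => k * k + 2 * k + 1) pc_redK ?_ ?_ ?_ ?_
  · exact comp_add (comp_add (comp_mul Computable.id Computable.id)
      (comp_mul (Computable.const 2) Computable.id)) (Computable.const 1)
  · intro a b h
    have := Nat.mul_le_mul h h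
    simp only
    omega
  · intro x k
    obtain ⟨n, D, S, h1, h2, -⟩ := instR_spec x k
    have := length_snd_of_code h1
    unfold redK
    simp only
    omega
  · intro x k
    obtain ⟨n, D, S, h1, h2, h3, h4, h5⟩ := instR_spec x k
    rw [h5]
    constructor
    · intro h
      exact ⟨n, D, S, h1, (length_snd_of_code h1).symm, h3, h4, h⟩
    · rintro ⟨n', D', S', g1, -, -, -, g2⟩
      have g3 : code D' S' = code D S := by
        rw [← h1]
        exact g1.symm
      exact code_inj g3 g2

/-! ### Algorithms -/

theorem exists_mono' (f : ℕ → ℕ) :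
    ∃ g : ℕ → ℕ, (Computable f → Computable g) ∧ Monotone g ∧ ∀ m, f m ≤ g m := by
  by_cases hf : Computable f
  · obtain ⟨g, h1, h2, h3⟩ := exists_mono hf
    exact ⟨g, fun _ => h1, h2, h3⟩
  · refine ⟨fun m => ∑ j ∈ Finset.range (m + 1), f j, fun h => absurd h hf, ?_, ?_⟩
    · intro a b h
      exact Finset.sum_le_sum_of_subset (Finset.range_subset_range.2 (by omega))
    · intro m
      exact Finset.single_le_sum (f := f) (fun _ _ => Nat.zero_le _) (by simp)

/-- From programs to machines. -/
theorem decides_of_runs {L : PProblem} {d : List Bool × ℕ → Bool} {c : Cmd ℕ} {F : ℕ → ℕ}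
    {p : Polynomial ℕ} (h : ∀ x k, Runs c (inp (Fpt.pcode (x, k))) (inp [d (x, k)])
      (F k * p.eval x.length)) (hd : ∀ y, y ∈ L ↔ d y = true) :
    ∃ M' : TM2ComputableAux Bool Bool, DecidesInTime M' L (fun k => F k + 1) (p + 1) := by
  refine ⟨{ tm := (c.map (Fin.ofNat (c.bd + 1))).toTM
            inputAlphabet := Equiv.refl Bool
            outputAlphabet := Equiv.refl Bool }, d, hd, ?_⟩
  intro x k
  obtain ⟨t, ht, hr⟩ := h x k
  have h1 := hr.restrict (n := c.bd) (by omega)
  have e : ∀ l : List Bool, (fun i : Fin (c.bd + 1) => (inp l : ℕ → List Bool) i) = inp l := by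
    intro l
    funext i
    by_cases hi : i = 0
    · subst hi; simp [inp]
    · have : (i : ℕ) ≠ 0 := fun h => hi (Fin.ext h)
      simp [inp, hi, this]
  have h2 : Nonempty (TM2OutputsInTime (c.map (Fin.ofNat (c.bd + 1))).toTM (pcode (x, k))
      (some [d (x, k)]) (t + 1)) := by
    refine toTM_outputs ?_
    have h3 := h1
    rw [e, e] at h3
    exact h3
  obtain ⟨h2⟩ := h2
  refine ⟨outputs_conv (List.map_id _).symm (List.map_id _).symm ?_ h2⟩
  simp only [Polynomial.eval_add, Polynomial.eval_one]
  generalize p.eval x.length = P at *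
  have : (F k + 1) * (P + 1) = F k * P + F k + P + 1 := by ring
  omega

/-- **An algorithm for LINKAGE on acyclic digraphs with running time `f(k) n^{g(ea(D))}` gives
fixed-parameter algorithms for all problems in `W[1]`.** -/
theorem decides_of_solves {M : TM2ComputableAux Bool Bool} {f g : ℕ → ℕ}
    (hM : SolvesOn (fun _ D => Acyclic D) M f g) : ∀ L ∈ W1, ∃ (M' : TM2ComputableAux Bool Bool) (F : ℕ → ℕ)
      (p : Polynomial ℕ), (Computable f → Computable F) ∧ DecidesInTime M' L F p := by
  rintro L ⟨R1, hR1, ⟨g1, hg1, hgle⟩, hiff⟩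
  have h0 := hR1.toFT
  have h1 : FT (bits : List Bool × List Unit → List Bool)
      (fun y => ((R1 y).1, List.replicate (R1 y).2 ())) := h0
  have h2 : FT (bits : List (List Bool) × List (ℕ × ℕ) → List Bool)
      (fun y => instR ((R1 y).1, List.replicate (R1 y).2 ())) := h1.comp poly_instR
  have hlen := h2.length
  obtain ⟨c, B, hB, hc⟩ := h2
  obtain ⟨prog, E, hE⟩ := sim M
  obtain ⟨f', hf', hmono, hle⟩ := exists_mono' f
  -- the exponent
  let G := ∑ j ∈ Finset.range 6, g j
  -- the length of the instance
  let ell : List Bool → ℕ → ℕ := fun x k =>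
    (bits (instR ((R1 (x, k)).1, List.replicate (R1 (x, k)).2 ()))).length
  have hell : FB ell := hlen
  obtain ⟨F0, p0, hF0, hQ⟩ : FB fun x k => B x k + E * (ell x k + ell x k ^ G + 1) := by
    refine hB.add ((FB.const E).mul ((hell.add ?_).add (FB.const 1)))
    have := hell.eval (Polynomial.X ^ G)
    refine this.of_le fun x k => ?_
    simp
  let g2 : ℕ → ℕ := fun k => g1 k * g1 k + 2 * g1 k + 1
  have hg2 : Computable g2 := comp_add (comp_add (comp_mul hg1 hg1)
      (comp_mul (Computable.const 2) hg1)) (Computable.const 1)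
  -- the answers
  have hspec : ∀ y : List Bool × ℕ, ∃ b : Bool, (y ∈ L ↔ b = true) ∧
      Nonempty (TM2OutputsInTime M.tm
        ((bits (instR ((R1 y).1, List.replicate (R1 y).2 ()))).map M.inputAlphabet.invFun)
        (some ([b].map M.outputAlphabet.invFun))
        (f' (g2 y.2) * (bits (instR ((R1 y).1, List.replicate (R1 y).2 ()))).length ^ G)) := by
    classical
    rintro ⟨x, k⟩
    obtain ⟨n, D, S, e1, e2, e3, e4, e5⟩ := instR_spec (R1 (x, k)).1 (R1 (x, k)).2
    obtain ⟨h3⟩ := hM n D S e3
    refine ⟨@decide (HasLinkage D S) (Classical.propDecidable _), ?_, ?_⟩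
    · rw [decide_eq_true_iff, ← e5]
      exact hiff x k
    · rw [e1]
      refine ⟨⟨h3.toEvalsTo, h3.steps_le_m.trans ?_⟩⟩
      refine Nat.mul_le_mul ?_ ?_
      · refine (hle _).trans (hmono (e2.trans ?_))
        have h4 := hgle x k
        have h5 := Nat.mul_le_mul h4 h4
        simp only [g2]
        omega
      · refine Nat.pow_le_pow_right ?_ ?_
        · unfold code
          rw [bits_length]
          exact sz_pos _
        · exact Finset.single_le_sum (f := g) (fun _ _ => Nat.zero_le _)
            (Finset.mem_range.2 (by omega))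
  choose d hd hd' using hspec
  have hruns : ∀ x k, Runs (Cmd.seq c prog) (inp (Fpt.pcode (x, k))) (inp [d (x, k)])
      (((f' (g2 k) + 1) * F0 k) * p0.eval x.length) := by
    intro x k
    refine ((hc x k).seq (hE _ _ _ (hd' (x, k)))).mono ?_
    have h3 := hQ x k
    simp only [ell] at h3
    generalize (bits (instR ((R1 (x, k)).1, List.replicate (R1 (x, k)).2 ()))).length = l at *
    generalize f' (g2 k) = u at *
    rw [mul_assoc]
    refine le_trans ?_ (Nat.mul_le_mul_left (u + 1) h3)
    have h4 : (u + 1) * (B x k + E * (l + l ^ G + 1)) = B x k + E * (l + u * l ^ G + 1) +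
      (u * B x k + E * (u * l + u + l ^ G)) := by ring
    omega
  obtain ⟨M', hM'⟩ := decides_of_runs hruns hd
  refine ⟨M', _, _, fun hf => ?_, hM'⟩
  exact comp_add (comp_mul (comp_add ((hf' hf).comp hg2) (Computable.const 1)) hF0)
    (Computable.const 1)

end Pool.Agent.D0H58.EA
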