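import Pool.Agent.D0H58.EA.Defs

/-!
# A bound for the ear anonymity of layered digraphs
-/

namespace Pool.Agent.D0H58.EA

variable {V : Type}

theorem arcs_nil : arcs ([] : List V) = [] := rfl

theorem arcs_singleton (a : V) : arcs [a] = [] := rfl

theorem arcs_cons_cons (a b : V) (l : List V) : arcs (a :: b :: l) = (a, b) :: arcs (b :: l) := rfl

theorem fst_mem {w : List V} {e : V × V} (h : e ∈ arcs w) : e.1 ∈ w := (List.of_mem_zip h).1

theorem snd_mem {w : List V} {e : V × V} (h : e ∈ arcs w) : e.2 ∈ w.tail := (List.of_mem_zip h).2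

theorem snd_mem' {w : List V} {e : V × V} (h : e ∈ arcs w) : e.2 ∈ w :=
  List.mem_of_mem_tail (snd_mem h)

theorem rel_of_mem_arcs {R : V → V → Prop} : ∀ {w : List V}, w.IsChain R → ∀ e ∈ arcs w, R e.1 e.2
  | [], _, e, he => by simp [arcs_nil] at he
  | [a], _, e, he => by simp [arcs_singleton] at he
  | a :: b :: l, h, e, he => by
    rw [arcs_cons_cons, List.mem_cons] at he
    rw [List.isChain_cons_cons] at h
    rcases he with rfl | he
    · exact h.1
    · exact rel_of_mem_arcs h.2 e he

theorem isChain_of_arcs {R : V → V → Prop} : ∀ {w : List V}, (∀ e ∈ arcs w, R e.1 e.2) →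
    w.IsChain R
  | [], _ => List.isChain_nil
  | [a], _ => List.isChain_singleton a
  | a :: b :: l, h => by
    rw [List.isChain_cons_cons]
    refine ⟨h (a, b) (by simp [arcs_cons_cons]), isChain_of_arcs fun e he => h e ?_⟩
    rw [arcs_cons_cons]
    exact List.mem_cons_of_mem _ he

/-- Along a walk on which `r` increases, the first vertex has the smallest value. -/
theorem le_of_chain {r : V → ℕ} : ∀ {a : V} {l : List V}, (a :: l).IsChain (fun u v => r u ≤ r v) →
    ∀ v ∈ a :: l, r a ≤ r v
  | a, [], _, v, hv => by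
    rw [List.mem_singleton] at hv
    rw [hv]
  | a, b :: l, h, v, hv => by
    rw [List.isChain_cons_cons] at h
    rw [List.mem_cons] at hv
    rcases hv with rfl | hv
    · exact le_rfl
    · exact h.1.trans (le_of_chain h.2 v hv)

theorem lt_of_chain {r : V → ℕ} {a : V} {l : List V} (h : (a :: l).IsChain (fun u v => r u < r v)) :
    ∀ v ∈ l, r a < r v := by
  intro v hv
  cases l with
  | nil => simp at hv
  | cons b l =>
    rw [List.isChain_cons_cons] at h
    exact h.1.trans_le (le_of_chain (r := r) (h.2.imp fun _ _ => le_of_lt) v hv)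

theorem nodup_of_chain {r : V → ℕ} : ∀ {w : List V}, w.IsChain (fun u v => r u < r v) → w.Nodup
  | [], _ => List.nodup_nil
  | a :: l, h => by
    rw [List.nodup_cons]
    refine ⟨fun ha => lt_irrefl _ (lt_of_chain h a ha), nodup_of_chain h.tail⟩

/-- A digraph is layered with top layer `L`: the layers do not decrease along arcs, vertices of
layer `0` have no arc coming in, vertices of layer `L` have no arc going out, every vertex has
at most one out-neighbour in its own layer, and there is a topological order. -/
structure Layered (D : Dig V) (L : ℕ) (lev rk : V → ℕ) : Prop where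
  rk_lt : ∀ u v, D.Arc u v → rk u < rk v
  lev_le : ∀ u v, D.Arc u v → lev u ≤ lev v
  lev_lt : ∀ u v, D.Arc u v → lev u < L
  lev_pos : ∀ u v, D.Arc u v → 0 < lev v
  uniq : ∀ u v v', D.Arc u v → D.Arc u v' → lev u = lev v → lev u = lev v' → v = v'

theorem acyclic_of_rk {D : Dig V} {rk : V → ℕ} (h : ∀ u v, D.Arc u v → rk u < rk v) :
    Acyclic D := by
  rintro w ⟨⟨h1, h2⟩, h3, h4, -⟩
  have h5 : w.IsChain (fun u v => rk u < rk v) := h2.imp h
  cases w with
  | nil => exact h1 rfl
  | cons a l =>
    cases l with
    | nil => simp at h4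
    | cons b l =>
      have h6 : a ∈ b :: l := by
        have h7 : (a :: b :: l).getLast? = (b :: l).getLast? := by simp
        rw [h7, List.head?_cons] at h3
        exact List.mem_of_getLast? h3.symm
      exact lt_irrefl _ (lt_of_chain h5 a h6)

section

variable {D : Dig V} {rk : V → ℕ}

theorem isPath_of_isWalk (h : ∀ u v, D.Arc u v → rk u < rk v) {w : List V} (hw : IsWalk D w) :
    IsPath D w := ⟨hw, nodup_of_chain (r := rk) (hw.2.imp h)⟩

theorem isPath_of_isEar (h : ∀ u v, D.Arc u v → rk u < rk v) {w : List V} (hw : IsEar D w) :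
    IsPath D w := by
  rcases hw with hw | hw
  · exact hw
  · exact absurd hw (acyclic_of_rk h w)

theorem sub_cons (u a : V) (l : List V) : Sub (a :: l) (u :: a :: l) :=
  ⟨fun _ hv => List.mem_cons_of_mem _ hv, fun _ he => by
    rw [arcs_cons_cons]
    exact List.mem_cons_of_mem _ he⟩

theorem arcs_concat (z : V) : ∀ (l : List V) (y : V),
    arcs (l ++ [y] ++ [z]) = arcs (l ++ [y]) ++ [(y, z)]
  | [], y => rfl
  | [a], y => rfl
  | a :: b :: l, y => by
    have := arcs_concat z (b :: l) y
    simp only [List.cons_append] at this ⊢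
    rw [arcs_cons_cons, this, arcs_cons_cons, List.cons_append]

theorem sub_concat (z : V) {w : List V} (hw : w ≠ []) : Sub w (w ++ [z]) := by
  refine ⟨fun _ hv => List.mem_append_left _ hv, fun e he => ?_⟩
  obtain ⟨l, y, rfl⟩ : ∃ l y, w = l ++ [y] := ⟨_, _, (List.dropLast_append_getLast hw).symm⟩
  rw [arcs_concat]
  exact List.mem_append_left _ he

/-- The first vertex of a maximal ear has no in-neighbours. -/
theorem no_in (h : ∀ u v, D.Arc u v → rk u < rk v) {a : V} {l : List V}
    (hw : IsMaxEar D (a :: l)) (u : V) : ¬ D.Arc u a := by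
  intro hu
  have h1 := isPath_of_isEar h hw.1
  have h2 : IsPath D (u :: a :: l) :=
    isPath_of_isWalk h ⟨by simp, List.isChain_cons_cons.2 ⟨hu, h1.1.2⟩⟩
  have h3 := (hw.2 _ (Or.inl h2) (sub_cons u a l)).1 u (by simp)
  have h4 := le_of_chain (r := rk) (h1.1.2.imp fun x y hxy => (h x y hxy).le) u h3
  have := h u a hu
  omega

/-- The last vertex of a maximal ear has no out-neighbours. -/
theorem no_out (h : ∀ u v, D.Arc u v → rk u < rk v) {w : List V} {y : V}
    (hw : IsMaxEar D (w ++ [y])) (z : V) : ¬ D.Arc y z := by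
  intro hz
  have h1 := isPath_of_isEar h hw.1
  have h2 : IsPath D (w ++ [y] ++ [z]) := by
    refine isPath_of_isWalk h ⟨by simp, ?_⟩
    refine h1.1.2.append (List.isChain_singleton z) ?_
    intro x hx x' hx'
    rw [List.getLast?_append] at hx
    simp only [List.getLast?_singleton, Option.some_or, Option.mem_def, Option.some.injEq] at hx
    simp only [List.head?_cons, Option.mem_def, Option.some.injEq] at hx'
    subst hx hx'
    exact hz
  have h3 := (hw.2 _ (Or.inl h2) (sub_concat z (by simp))).1 z (by simp)
  have h4 := h2.2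
  rw [List.nodup_append] at h4
  exact h4.2.2 z h3 z (by simp) rfl

end

/-! ### The identifying sequence -/

/-- the arcs of a walk along which `ψ` increases -/
def incr (ψ : V → ℕ) (w : List V) : List (V × V) :=
  (arcs w).filter fun e => decide (ψ e.1 < ψ e.2)

theorem length_incr {ψ : V → ℕ} : ∀ {a z : V} {l : List V},
    (a :: l).IsChain (fun u v => ψ u ≤ ψ v) → (a :: l).getLast? = some z →
    (incr ψ (a :: l)).length + ψ a ≤ ψ z
  | a, z, [], _, h => by
    simp only [List.getLast?_singleton, Option.some.injEq] at h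
    subst h
    simp [incr, arcs_singleton]
  | a, z, b :: l, h, h' => by
    rw [List.isChain_cons_cons] at h
    have h1 : (b :: l).getLast? = some z := by
      rw [← h']
      simp
    have h2 := length_incr h.2 h1
    unfold incr at h2 ⊢
    rw [arcs_cons_cons, List.filter_cons]
    split_ifs with h3
    · simp only [decide_eq_true_eq] at h3
      rw [List.length_cons]
      omega
    · have := h.1
      omega

theorem head_incr {ψ : V → ℕ} : ∀ {a : V} {l : List V} {e : V × V} {s : List (V × V)},
    (a :: l).IsChain (fun u v => ψ u ≤ ψ v) → incr ψ (a :: l) = e :: s → ψ e.1 = ψ a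
  | a, [], e, s, _, h => by simp [incr, arcs_singleton] at h
  | a, b :: l, e, s, h, h' => by
    rw [List.isChain_cons_cons] at h
    unfold incr at h'
    rw [arcs_cons_cons, List.filter_cons] at h'
    split_ifs at h' with h3
    · rw [List.cons.injEq] at h'
      rw [← h'.1]
    · simp only [decide_eq_true_eq] at h3
      have h4 := head_incr h.2 h'
      have := h.1
      omega

theorem sublist_of_ne {α : Type} {e f : α} {s l : List α} (h : (e :: s).Sublist (f :: l))
    (hne : e ≠ f) : (e :: s).Sublist l := by
  cases h with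
  | cons _ h => exact h
  | cons_cons _ h => exact absurd rfl hne

/-- The key lemma. -/
theorem key {D : Dig V} {L : ℕ} {lev rk ψ : V → ℕ} (hD : Layered D L lev rk) {z : V}
    (hz : ∀ y, ¬ D.Arc z y) : ∀ (l l' : List V) (x : V),
    (x :: l).IsChain D.Arc → (x :: l').IsChain D.Arc →
    (∀ e ∈ arcs (x :: l), ψ e.1 ≤ ψ e.2) →
    (∀ e ∈ arcs (x :: l), ¬ ψ e.1 < ψ e.2 → lev e.1 = lev e.2) →
    (∀ e ∈ arcs l, ψ e.1 = lev e.1) →
    (∀ e ∈ arcs (x :: l), e.2 = z → ψ e.1 < ψ e.2) →
    (x :: l).getLast? = some z →
    (incr ψ (x :: l)).Sublist (arcs (x :: l')) → l' = l := by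
  intro l
  induction l with
  | nil =>
    intro l' x _ h2 _ _ _ _ h6 _
    simp only [List.getLast?_singleton, Option.some.injEq] at h6
    subst h6
    cases l' with
    | nil => rfl
    | cons y l' =>
      rw [List.isChain_cons_cons] at h2
      exact absurd h2.1 (hz y)
  | cons b l ih =>
    intro l' x h1 h2 h0 h3 h4 h5 h6 h7
    have hnd := nodup_of_chain (r := rk) (h1.imp hD.rk_lt)
    have hnd' := nodup_of_chain (r := rk) (h2.imp hD.rk_lt)
    have h1' := List.isChain_cons_cons.1 h1
    have h6' : (b :: l).getLast? = some z := by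
      rw [← h6]
      simp
    have e0 : ∀ e ∈ arcs (b :: l), ψ e.1 ≤ ψ e.2 := fun e he =>
      h0 e (by rw [arcs_cons_cons]; exact List.mem_cons_of_mem _ he)
    have e3 : ∀ e ∈ arcs (b :: l), ¬ ψ e.1 < ψ e.2 → lev e.1 = lev e.2 := fun e he =>
      h3 e (by rw [arcs_cons_cons]; exact List.mem_cons_of_mem _ he)
    have e4 : ∀ e ∈ arcs l, ψ e.1 = lev e.1 := fun e he => by
      refine h4 e ?_
      cases l with
      | nil => simp [arcs_nil] at he
      | cons c l =>
        rw [arcs_cons_cons]
        exact List.mem_cons_of_mem _ he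
    have e5 : ∀ e ∈ arcs (b :: l), e.2 = z → ψ e.1 < ψ e.2 := fun e he =>
      h5 e (by rw [arcs_cons_cons]; exact List.mem_cons_of_mem _ he)
    have hxb : (x, b) ∈ arcs (x :: b :: l) := by simp [arcs_cons_cons]
    by_cases hlt : ψ x < ψ b
    · have e7 : incr ψ (x :: b :: l) = (x, b) :: incr ψ (b :: l) := by
        unfold incr
        rw [arcs_cons_cons, List.filter_cons_of_pos (by simpa using hlt)]
      rw [e7] at h7
      have h8 : (x, b) ∈ arcs (x :: l') := h7.subset (by simp)
      cases l' with
      | nil => simp [arcs_singleton] at h8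
      | cons b' l' =>
        rw [arcs_cons_cons, List.mem_cons] at h8
        have h9 : b' = b := by
          rcases h8 with h8 | h8
          · exact (Prod.mk.inj h8).2.symm
          · exact absurd (fst_mem h8) (List.nodup_cons.1 hnd').1
        subst h9
        rw [arcs_cons_cons] at h7
        have h10 := List.cons_sublist_cons.1 h7
        rw [ih l' b' h1'.2 h2.tail e0 e3 e4 e5 h6' h10]
    · have e7 : incr ψ (x :: b :: l) = incr ψ (b :: l) := by
        unfold incr
        rw [arcs_cons_cons, List.filter_cons_of_neg (by simpa using hlt)]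
      rw [e7] at h7
      have hlev : lev x = lev b := h3 _ hxb hlt
      -- `l` is not empty
      have hl : l ≠ [] := by
        rintro rfl
        simp only [List.getLast?_singleton, Option.some.injEq] at h6'
        subst h6'
        exact hlt (h5 _ hxb rfl)
      -- the increasing arcs of `b :: l` are not empty
      have hne : incr ψ (b :: l) ≠ [] := by
        obtain ⟨l₁, y, rfl⟩ : ∃ l₁ y, l = l₁ ++ [y] := ⟨_, _, (List.dropLast_append_getLast hl).symm⟩
        have hy : y = z := by
          rw [← List.cons_append, List.getLast?_append] at h6'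
          simpa using h6'
        subst hy
        obtain ⟨l₂, y', h8⟩ : ∃ l₂ y', b :: l₁ = l₂ ++ [y'] :=
          ⟨_, _, (List.dropLast_append_getLast (by simp)).symm⟩
        have h9 : (y', y) ∈ arcs (b :: (l₁ ++ [y])) := by
          rw [← List.cons_append, h8, arcs_concat]
          simp
        intro h10
        have h11 : (y', y) ∈ incr ψ (b :: (l₁ ++ [y])) := by
          unfold incr
          rw [List.mem_filter]
          exact ⟨h9, by simpa using e5 _ h9 rfl⟩
        rw [h10] at h11
        simp at h11
      obtain ⟨e, s, hes⟩ : ∃ e s, incr ψ (b :: l) = e :: s := List.exists_cons_of_ne_nil hne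
      have he : e ∈ arcs (b :: l) := by
        have : e ∈ incr ψ (b :: l) := by simp [hes]
        exact (List.mem_filter.1 this).1
      have he1 : e.1 ∈ b :: l := fst_mem he
      have hex : e.1 ≠ x := fun h => (List.nodup_cons.1 hnd).1 (h ▸ he1)
      have hψ : ψ e.1 = ψ b := head_incr (isChain_of_arcs e0) hes
      have hψb : ψ b = lev b := by
        cases l with
        | nil => exact absurd rfl hl
        | cons c l => exact h4 (b, c) (by simp [arcs_cons_cons])
      have hψe : ψ e.1 = lev e.1 := h4 e he
      rw [hes] at h7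
      have h8 : e ∈ arcs (x :: l') := h7.subset (by simp)
      cases l' with
      | nil => simp [arcs_singleton] at h8
      | cons b' l' =>
        have h2' := List.isChain_cons_cons.1 h2
        rw [arcs_cons_cons] at h7
        have h9 : e ≠ (x, b') := fun h => hex (by rw [h])
        have h10 := sublist_of_ne h7 h9
        have h11 : e ∈ arcs (b' :: l') := h10.subset (by simp)
        have h12 : lev b' ≤ lev e.1 :=
          le_of_chain (r := lev) (h2'.2.imp hD.lev_le) _ (fst_mem h11)
        have h13 : lev x ≤ lev b' := hD.lev_le _ _ h2'.1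
        have h14 : lev x = lev b' := by omega
        have h15 : b' = b := hD.uniq x b' b h2'.1 h1'.1 h14 hlev
        subst h15
        rw [← hes] at h10
        rw [ih l' b' h1'.2 h2'.2 e0 e3 e4 e5 h6' h10]

/-- **Layered digraphs have bounded ear anonymity.** -/
theorem ea_le {D : Dig V} {L : ℕ} {lev rk : V → ℕ} (hD : Layered D L lev rk) : ea D ≤ L := by
  classical
  refine csSup_le' ?_
  rintro m ⟨w, hw, rfl⟩
  unfold eaOf
  split_ifs with h0
  · exact Nat.zero_le _
  have hp := isPath_of_isEar hD.rk_lt hw.1
  obtain ⟨a, l, rfl⟩ : ∃ a l, w = a :: l := List.exists_cons_of_ne_nil hp.1.1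
  cases l with
  | nil => exact absurd rfl h0
  | cons b l =>
    obtain ⟨w₁, z, hz⟩ : ∃ w₁ z, a :: b :: l = w₁ ++ [z] :=
      ⟨_, _, (List.dropLast_append_getLast (by simp)).symm⟩
    have hin := no_in hD.rk_lt hw
    have hout : ∀ y, ¬ D.Arc z y := by
      have h1 := hw
      rw [hz] at h1
      exact no_out hD.rk_lt h1
    have hlast : (a :: b :: l).getLast? = some z := by
      rw [hz]
      simp
    have hz2 : z ∈ b :: l := by
      have h1 : (b :: l).getLast? = some z := by
        rw [← hlast]
        simp
      exact List.mem_of_getLast? h1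
    have haz : a ≠ z := fun h => (List.nodup_cons.1 hp.2).1 (h ▸ hz2)
    have hL : lev a < L := hD.lev_lt a b (List.isChain_cons_cons.1 hp.1.2).1
    let ψ : V → ℕ := fun v => if v = a then 0 else if v = z then L else lev v
    have hψa : ψ a = 0 := if_pos rfl
    have hψz : ψ z = L := by
      simp only [ψ, if_neg haz.symm, if_true]
    have hψ : ∀ v, v ≠ a → v ≠ z → ψ v = lev v := fun v h1 h2 => by
      simp only [ψ, if_neg h1, if_neg h2]
    have hrel := rel_of_mem_arcs hp.1.2
    have hfst : ∀ e ∈ arcs (a :: b :: l), e.1 ≠ z := fun e he h1 =>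
      hout e.2 (h1 ▸ hrel e he)
    have hsnd : ∀ e ∈ arcs (a :: b :: l), e.2 ≠ a := fun e he h1 =>
      hin e.1 (h1 ▸ hrel e he)
    -- `ψ` strictly increases along the first and the last arc
    have hfirst : ∀ e ∈ arcs (a :: b :: l), e.1 = a → ψ e.1 < ψ e.2 := by
      intro e he h1
      rw [h1, hψa]
      by_cases h2 : e.2 = z
      · rw [h2, hψz]; omega
      · rw [hψ _ (hsnd e he) h2]
        exact hD.lev_pos _ _ (hrel e he)
    have hlst : ∀ e ∈ arcs (a :: b :: l), e.2 = z → ψ e.1 < ψ e.2 := by
      intro e he h1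
      rw [h1, hψz]
      by_cases h2 : e.1 = a
      · rw [h2, hψa]; omega
      · rw [hψ _ h2 (hfst e he)]
        exact hD.lev_lt _ _ (hrel e he)
    have hmid : ∀ e ∈ arcs (a :: b :: l), e.1 ≠ a → e.2 ≠ z → ψ e.1 = lev e.1 ∧ ψ e.2 = lev e.2 :=
      fun e he h1 h2 => ⟨hψ _ h1 (hfst e he), hψ _ (hsnd e he) h2⟩
    have hle : ∀ e ∈ arcs (a :: b :: l), ψ e.1 ≤ ψ e.2 := by
      intro e he
      by_cases h1 : e.1 = a
      · exact (hfirst e he h1).le
      by_cases h2 : e.2 = z
      · exact (hlst e he h2).le
      obtain ⟨h3, h4⟩ := hmid e he h1 h2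
      rw [h3, h4]
      exact hD.lev_le _ _ (hrel e he)
    have heq : ∀ e ∈ arcs (a :: b :: l), ¬ ψ e.1 < ψ e.2 → lev e.1 = lev e.2 := by
      intro e he h
      have h1 : e.1 ≠ a := fun h1 => h (hfirst e he h1)
      have h2 : e.2 ≠ z := fun h2 => h (hlst e he h2)
      obtain ⟨h3, h4⟩ := hmid e he h1 h2
      rw [h3, h4] at h
      have := hD.lev_le _ _ (hrel e he)
      omega
    have htl : ∀ e ∈ arcs (b :: l), ψ e.1 = lev e.1 := by
      intro e he
      have h1 : e ∈ arcs (a :: b :: l) := by
        rw [arcs_cons_cons]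
        exact List.mem_cons_of_mem _ he
      refine hψ _ ?_ (hfst e h1)
      intro h2
      exact (List.nodup_cons.1 hp.2).1 (h2 ▸ fst_mem he)
    have hab : (a, b) ∈ arcs (a :: b :: l) := by simp [arcs_cons_cons]
    have habs : (a, b) ∈ incr ψ (a :: b :: l) := by
      unfold incr
      rw [List.mem_filter]
      exact ⟨hab, by simpa using hfirst _ hab rfl⟩
    have hid : Identifies D (a :: b :: l) (incr ψ (a :: b :: l)) := by
      refine ⟨fun h => ?_, List.filter_sublist, fun w' hw' hs => ?_⟩
      · rw [h] at habs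
        simp at habs
      · have hp' := isPath_of_isEar hD.rk_lt hw'
        obtain ⟨a', l', rfl⟩ : ∃ a l, w' = a :: l := List.exists_cons_of_ne_nil hp'.1.1
        have h1 : (a, b) ∈ arcs (a' :: l') := hs.subset habs
        have h2 : a' = a := by
          have h3 : a ∈ a' :: l' := fst_mem h1
          rw [List.mem_cons] at h3
          rcases h3 with h3 | h3
          · exact h3.symm
          · exfalso
            obtain ⟨l₁, l₂, h4⟩ := List.append_of_mem h3
            have h5 := hp'.1.2
            rw [h4] at h5
            obtain ⟨l₃, y, h6⟩ : ∃ l₃ y, a' :: l₁ = l₃ ++ [y] :=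
              ⟨_, _, (List.dropLast_append_getLast (by simp)).symm⟩
            rw [← List.cons_append, h6, List.append_assoc] at h5
            have h7 := h5.right_of_append
            simp only [List.cons_append, List.nil_append] at h7
            exact hin y (List.isChain_cons_cons.1 h7).1
        subst h2
        have h3 := key hD hout (b :: l) l' a' hp.1.2 hp'.1.2 hle heq htl hlst hlast hs
        rw [h3]
        exact ⟨fun _ h => h, fun _ h => h⟩
    have hlen := length_incr (isChain_of_arcs (w := a :: b :: l) hle) hlast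
    rw [hψa, hψz] at hlen
    have hmem : (incr ψ (a :: b :: l)).length ∈
        {m | ∃ s, Identifies D (a :: b :: l) s ∧ s.length = m} := ⟨_, hid, rfl⟩
    refine (Nat.sInf_le hmem).trans ?_
    omega

end Pool.Agent.D0H58.EA
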